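import Mathlib

/-! Elementary facts on the circle `ℝ/ℤ`. -/

set_option autoImplicit false

open Finset

namespace Pool.Agent.H285Z.TP

abbrev Cir := UnitAddCircle

/-- the standard character -/
noncomputable def ee (x : Cir) : ℂ := (AddCircle.toCircle x : ℂ)

theorem ee_add (x y : Cir) : ee (x + y) = ee x * ee y := by
  simp [ee, AddCircle.toCircle_add]

theorem ee_zero : ee 0 = 1 := by simp [ee]

theorem norm_ee (x : Cir) : ‖ee x‖ = 1 := Circle.norm_coe _

theorem ee_nsmul (n : ℕ) (x : Cir) : ee (n • x) = ee x ^ n := by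
  simp [ee, AddCircle.toCircle_nsmul]

theorem ee_neg (x : Cir) : ee (-x) = (starRingEnd ℂ) (ee x) := by
  unfold ee
  rw [AddCircle.toCircle_neg, Circle.coe_inv_eq_conj]

theorem ee_ne_one {x : Cir} (hx : x ≠ 0) : ee x ≠ 1 := by
  intro h
  apply hx
  apply AddCircle.injective_toCircle (T := 1) one_ne_zero
  rw [AddCircle.toCircle_zero]
  exact Circle.ext h

theorem continuous_ee : Continuous ee := by
  unfold ee
  exact continuous_subtype_val.comp AddCircle.continuous_toCircle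

theorem exists_lift (x : Cir) : ∃ t : ℝ, (t : Cir) = x ∧ |t| = ‖x‖ := by
  induction x using QuotientAddGroup.induction_on with
  | H s =>
    refine ⟨s - round s, ?_, ?_⟩
    · rw [AddCircle.coe_sub]
      have : ((round s : ℝ) : Cir) = 0 := by
        rw [AddCircle.coe_eq_zero_iff]; exact ⟨round s, by simp⟩
      rw [this, sub_zero]
    · exact UnitAddCircle.norm_eq.symm

theorem norm_coe_le (t : ℝ) : ‖(t : Cir)‖ ≤ |t| := by
  exact QuotientAddGroup.norm_mk_le_norm

theorem norm_ee_sub_one_le (x : Cir) : ‖ee x - 1‖ ≤ 7 * ‖x‖ := by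
  obtain ⟨t, rfl, ht⟩ := exists_lift x
  rw [← ht]
  have : ee (t : Cir) = Complex.exp (Complex.I * (2 * Real.pi * t : ℝ)) := by
    simp [ee, AddCircle.toCircle_apply_mk, Circle.coe_exp, mul_comm]
  rw [this]
  refine Real.norm_exp_I_mul_ofReal_sub_one_le.trans ?_
  rw [Real.norm_eq_abs, abs_mul, abs_of_pos Real.two_pi_pos]
  have := Real.pi_lt_d2
  have := abs_nonneg t
  nlinarith

theorem norm_ee_sub_le (x y : Cir) : ‖ee x - ee y‖ ≤ 7 * ‖x - y‖ := by
  have : ee x - ee y = (ee (x - y) - 1) * ee y := by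
    rw [sub_mul, ← ee_add]; simp
  rw [this, norm_mul, norm_ee, mul_one]
  exact norm_ee_sub_one_le _

theorem sum_ee_eq_zero {N : ℕ} {w : Cir} (hN : N • w = 0) (hw : w ≠ 0) (c0 : ℕ) :
    ∑ c ∈ range N, ee ((c0 + c) • w) = 0 := by
  have h1 : ∀ c, ee ((c0 + c) • w) = ee (c0 • w) * ee w ^ c := by
    intro c; rw [add_nsmul, ee_add, ee_nsmul c]
  simp_rw [h1]
  rw [← Finset.mul_sum, geom_sum_eq (ee_ne_one hw), ← ee_nsmul, hN, ee_zero]
  simp

theorem inv_le_norm {N : ℕ} (hN0 : 0 < N) {w : Cir} (hN : N • w = 0) (hw : w ≠ 0) :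
    1 / (N : ℝ) ≤ ‖w‖ := by
  have hfin : IsOfFinAddOrder w := isOfFinAddOrder_iff_nsmul_eq_zero.mpr ⟨N, hN0, hN⟩
  have h1 := AddCircle.le_add_order_smul_norm_of_isOfFinAddOrder hfin hw
  have h2 : addOrderOf w ≤ N := addOrderOf_le_of_nsmul_eq_zero hN0 hN
  rw [nsmul_eq_mul] at h1
  have h3 : (addOrderOf w : ℝ) ≤ N := by exact_mod_cast h2
  have hN' : (0 : ℝ) < N := by exact_mod_cast hN0
  rw [div_le_iff₀ hN']
  have := norm_nonneg w
  nlinarith

theorem sep {a b : ℕ} (ha : 0 < a) (hb : 0 < b) {y z : Cir} (hy : a • y = 0) (hz : b • z = 0)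
    (hne : y ≠ z) : 1 / ((a : ℝ) * b) ≤ ‖y - z‖ := by
  have := inv_le_norm (N := a * b) (by positivity) (w := y - z) (by
    rw [smul_sub, mul_comm a b, mul_nsmul', hy, mul_nsmul, hz]; simp) (sub_ne_zero.mpr hne)
  simpa using this

theorem norm_two_nsmul {w : Cir} (hw : ‖w‖ ≤ 1 / 4) : ‖2 • w‖ = 2 * ‖w‖ := by
  obtain ⟨t, rfl, ht⟩ := exists_lift w
  rw [← ht] at hw ⊢
  have : (2 • (t : Cir)) = ((2 * t : ℝ) : Cir) := by
    rw [← AddCircle.coe_nsmul]; simp
  rw [this, (AddCircle.norm_coe_eq_abs_iff (1 : ℝ) one_ne_zero).mpr]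
  · rw [abs_mul]; simp
  · rw [abs_mul]; simp; linarith

theorem expansive {n : ℕ} {w : Cir} (h : ∀ j ≤ n, ‖2 ^ j • w‖ ≤ 1 / 4) :
    2 ^ n * ‖w‖ ≤ 1 / 4 := by
  have : ∀ j ≤ n, ‖2 ^ j • w‖ = 2 ^ j * ‖w‖ := by
    intro j hj
    induction j with
    | zero => simp
    | succ j ih =>
      rw [pow_succ', mul_nsmul', norm_two_nsmul (h j (by omega)), ih (by omega)]
      ring
  rw [← this n le_rfl]; exact h n le_rfl

theorem dirichlet (x : Cir) {N : ℕ} (hN : 0 < N) :
    ∃ y : Cir, 1 ≤ addOrderOf y ∧ addOrderOf y ≤ N ∧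
      ‖x - y‖ ≤ 1 / ((addOrderOf y : ℝ) * N) := by
  obtain ⟨t, rfl, -⟩ := exists_lift x
  obtain ⟨q, hq1, hq2⟩ := Real.exists_rat_abs_sub_le_and_den_le t hN
  have hord : addOrderOf ((q : ℝ) : Cir) = q.den := by
    have := AddCircle.addOrderOf_coe_rat (p := (1 : ℝ)) (q := q)
    simpa using this
  refine ⟨((q : ℝ) : Cir), by rw [hord]; exact q.pos, by rw [hord]; exact hq2, ?_⟩
  rw [hord, ← AddCircle.coe_sub]
  refine (norm_coe_le _).trans (hq1.trans ?_)
  have h1 : (0 : ℝ) < q.den := by exact_mod_cast q.pos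
  have h2 : (0 : ℝ) < N := by exact_mod_cast hN
  apply one_div_le_one_div_of_le (by positivity)
  nlinarith

/-- counting in `[R, 2R)` through blocks of length `N` -/
theorem card_le_of_blocks (P : ℕ → Prop) [DecidablePred P] {N : ℕ} (hN : 0 < N) {β : ℝ}
    (hβ : 0 ≤ β)
    (h : ∀ c0, (((range N).filter (fun c => P (c0 + c))).card : ℝ) ≤ β * N) (R : ℕ) :
    (((Ico R (2 * R)).filter P).card : ℝ) ≤ β * (R + N) := by
  have hsub : (Ico R (2 * R)).filter P ⊆ (range (R / N + 1)).biUnion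
      (fun i => ((range N).filter (fun c => P (R + i * N + c))).image (fun c => R + i * N + c)) := by
    intro c hc
    rw [mem_filter, mem_Ico] at hc
    rw [mem_biUnion]
    have e : R + (c - R) / N * N + (c - R) % N = c := by
      have := Nat.div_add_mod' (c - R) N
      omega
    refine ⟨(c - R) / N, ?_, ?_⟩
    · rw [mem_range, Nat.lt_succ_iff]
      exact Nat.div_le_div_right (by omega)
    · rw [mem_image]
      refine ⟨(c - R) % N, ?_, e⟩
      rw [mem_filter, mem_range, e]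
      exact ⟨Nat.mod_lt _ hN, hc.2⟩
  have h1 : (((Ico R (2 * R)).filter P).card : ℝ) ≤
      ∑ i ∈ range (R / N + 1), (β * N) := by
    refine le_trans (Nat.cast_le.mpr ((card_le_card hsub).trans card_biUnion_le)) ?_
    push_cast
    refine sum_le_sum fun i _ => le_trans (Nat.cast_le.mpr card_image_le) (h _)
  refine h1.trans ?_
  rw [sum_const, card_range, nsmul_eq_mul]
  have h2 : ((R / N : ℕ) : ℝ) * N ≤ R := by exact_mod_cast Nat.div_mul_le_self R N
  push_cast
  nlinarith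

end Pool.Agent.H285Z.TP
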