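import Pool.Agent.H285Z.TP.Basic

/-! Counting the fractions which are close to a point whose orbit mostly shadows a finite set. -/

set_option autoImplicit false

open Finset

namespace Pool.Agent.H285Z.TP

/-- `x` is within `r` of the finite set `P` -/
def Near (P : Finset Cir) (r : ℝ) (x : Cir) : Prop := ∃ z ∈ P, ‖x - z‖ < r

open Classical in
/-- number of times before `n` at which the orbit of `x` is far from `P` -/
noncomputable def badCount (P : Finset Cir) (r : ℝ) (n : ℕ) (x : Cir) : ℕ :=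
  ((range n).filter (fun j => ¬ Near P r (2 ^ j • x))).card

theorem exists_cells {ρ : ℝ} (hρ : 0 < ρ) :
    ∃ (a : ℕ) (cell : Cir → Fin a), 1 ≤ a ∧ ∀ x y, cell x = cell y → ‖x - y‖ ≤ ρ := by
  obtain ⟨t, -, htf, hcov⟩ := finite_cover_balls_of_compact (isCompact_univ (X := Cir))
    (half_pos hρ)
  have h : ∀ x : Cir, ∃ a : htf.toFinset, dist x a < ρ / 2 := by
    intro x
    have := hcov (Set.mem_univ x)
    simp only [Set.mem_iUnion] at this
    obtain ⟨a, ha, hx⟩ := this
    exact ⟨⟨a, by simpa using ha⟩, hx⟩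
  choose f hf using h
  refine ⟨htf.toFinset.card, fun x => htf.toFinset.equivFin (f x), ?_, ?_⟩
  · exact card_pos.mpr ⟨f 0, (f 0).2⟩
  · intro x y hxy
    have h1 : f x = f y := htf.toFinset.equivFin.injective hxy
    have h2 := hf x
    have h3 := hf y
    rw [← h1] at h3
    rw [← dist_eq_norm]
    linarith [dist_triangle_right x y (f x)]

open Classical in
/-- the code of an orbit segment -/
noncomputable def code (P : Finset Cir) (r : ℝ) {a : ℕ} (cell : Cir → Fin a) (n : ℕ) (x : Cir) :
    Fin n → Option (Fin a) :=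
  fun j => if (j : ℕ) ≠ 0 ∧ Near P r (2 ^ (j : ℕ) • x) then none else some (cell (2 ^ (j : ℕ) • x))

theorem code_count (P : Finset Cir) (r : ℝ) {a : ℕ} (cell : Cir → Fin a) (n : ℕ) (x : Cir) :
    (univ.filter (fun j => code P r cell n x j ≠ none)).card ≤ badCount P r n x + 1 := by
  classical
  have h : (univ.filter (fun j => code P r cell n x j ≠ none)).map Fin.valEmbedding ⊆
      insert 0 ((range n).filter (fun j => ¬ Near P r (2 ^ j • x))) := by
    intro j hj
    rw [mem_map] at hj
    obtain ⟨i, hi, rfl⟩ := hj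
    have hi' := (mem_filter.mp hi).2
    simp only [code, ne_eq, ite_eq_left_iff, reduceCtorEq, imp_false, not_not] at hi'
    rw [mem_insert, mem_filter, mem_range]
    simp only [Fin.valEmbedding_apply]
    by_cases h0 : (i : ℕ) = 0
    · left; exact h0
    · right; exact ⟨i.2, fun hn => hi' ⟨h0, hn⟩⟩
  have := card_le_card h
  rw [card_map] at this
  refine this.trans ((card_insert_le _ _).trans ?_)
  unfold badCount
  congr!

theorem code_close {P : Finset Cir} {b : ℕ} (hb : 0 < b) (hP : ∀ z ∈ P, b • z = 0) {r : ℝ}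
    (hr : r ≤ 1 / (8 * b)) {a : ℕ} {cell : Cir → Fin a}
    (hcell : ∀ x y, cell x = cell y → ‖x - y‖ ≤ 1 / (4 * b)) {n : ℕ} {x y : Cir}
    (h : code P r cell n x = code P r cell n y) :
    ∀ j < n, ‖2 ^ j • (x - y)‖ ≤ 1 / (4 * b) := by
  have hb' : (0 : ℝ) < b := by exact_mod_cast hb
  intro j hj
  have key : (j ≠ 0 ∧ Near P r (2 ^ j • x) ∧ Near P r (2 ^ j • y)) ∨
      ‖2 ^ j • (x - y)‖ ≤ 1 / (4 * b) := by
    have h1 := congrFun h ⟨j, hj⟩
    simp only [code] at h1
    split_ifs at h1 with h2 h3 h3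
    · left; exact ⟨h2.1, h2.2, h3.2⟩
    · right; rw [smul_sub]; exact hcell _ _ (Option.some.inj h1)
  induction j with
  | zero => exact key.resolve_left (by simp)
  | succ j ih =>
    rcases key with ⟨-, ⟨z, hz, hxz⟩, ⟨w, hw, hyw⟩⟩ | h2
    · have ih' : ‖2 ^ j • (x - y)‖ ≤ 1 / (4 * b) := by
        apply ih (by omega)
        have h1 := congrFun h ⟨j, by omega⟩
        simp only [code] at h1
        split_ifs at h1 with h2 h3 h3
        · left; exact ⟨h2.1, h2.2, h3.2⟩
        · right; rw [smul_sub]; exact hcell _ _ (Option.some.inj h1)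
      have h2 : ‖2 ^ (j + 1) • (x - y)‖ ≤ 2 * (1 / (4 * b)) := by
        rw [pow_succ', mul_nsmul']
        have := norm_nsmul_le (n := 2) (a := 2 ^ j • (x - y))
        push_cast at this
        linarith
      have e : z - w = 2 ^ (j + 1) • (x - y) - (2 ^ (j + 1) • x - z) + (2 ^ (j + 1) • y - w) := by
        rw [smul_sub]; abel
      have h3 : ‖z - w‖ < 1 / b := by
        rw [e]
        have t1 := norm_add_le (2 ^ (j + 1) • (x - y) - (2 ^ (j + 1) • x - z)) (2 ^ (j + 1) • y - w)
        have t2 := norm_sub_le (2 ^ (j + 1) • (x - y)) (2 ^ (j + 1) • x - z)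
        have t3 : 2 * (1 / (4 * (b : ℝ))) + 1 / (8 * b) + 1 / (8 * b) ≤ 1 / b := by
          field_simp; norm_num
        linarith
      have hzw : z = w := by
        by_contra hne
        have := inv_le_norm hb (w := z - w) (by rw [smul_sub, hP z hz, hP w hw, sub_zero])
          (sub_ne_zero.mpr hne)
        linarith
      subst hzw
      have e2 : 2 ^ (j + 1) • (x - y) = (2 ^ (j + 1) • x - z) - (2 ^ (j + 1) • y - z) := by
        rw [smul_sub]; abel
      rw [e2]
      have t1 := norm_sub_le (2 ^ (j + 1) • x - z) (2 ^ (j + 1) • y - z)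
      have t3 : 1 / (8 * (b : ℝ)) + 1 / (8 * b) = 1 / (4 * b) := by
        field_simp; norm_num
      linarith
    · exact h2

theorem count_sparse {a : ℕ} (ha : 1 ≤ a) {τ : ℝ} (hτ0 : 0 < τ) (hτ1 : τ ≤ 1) (n : ℕ) (s : ℝ) :
    ((univ.filter (fun γ : Fin n → Option (Fin a) =>
      ((univ.filter (fun j => γ j ≠ none)).card : ℝ) ≤ s)).card : ℝ) ≤
      Real.exp (τ * n + s * Real.log (a / τ)) := by
  have ha' : (1 : ℝ) ≤ a := by exact_mod_cast ha
  set ω : Option (Fin a) → ℝ := fun o => if o = none then 1 else τ / a with hω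
  have hq0 : 0 < τ / a := by positivity
  have hq1 : τ / a ≤ 1 := by rw [div_le_one (by positivity)]; linarith
  have hsum : ∑ o, ω o = 1 + τ := by
    rw [Fintype.sum_option]
    simp [hω]
    field_simp
  have htot : ∑ γ : Fin n → Option (Fin a), ∏ j, ω (γ j) = (1 + τ) ^ n := by
    have := Finset.prod_univ_sum (fun _ : Fin n => (univ : Finset (Option (Fin a)))) (fun _ o => ω o)
    rw [Fintype.piFinset_univ] at this
    rw [← this, hsum]; simp
  have hprod : ∀ γ : Fin n → Option (Fin a), ∏ j, ω (γ j) =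
      (τ / a) ^ (univ.filter (fun j => γ j ≠ none)).card := by
    intro γ
    simp only [hω]
    rw [prod_ite]
    simp [div_pow]
  have hlow : ∀ γ : Fin n → Option (Fin a), ((univ.filter (fun j => γ j ≠ none)).card : ℝ) ≤ s →
      Real.exp (-(s * Real.log (a / τ))) ≤ ∏ j, ω (γ j) := by
    intro γ hγ
    rw [hprod, ← Real.exp_log (pow_pos hq0 _), Real.log_pow, Real.exp_le_exp]
    have e : Real.log (τ / a) = -Real.log (a / τ) := by
      rw [← Real.log_inv, inv_div]
    have hl : 0 ≤ Real.log (a / τ) := Real.log_nonneg (by rw [le_div_iff₀ hτ0]; linarith)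
    rw [e]
    nlinarith
  have h1 : ((univ.filter (fun γ : Fin n → Option (Fin a) =>
      ((univ.filter (fun j => γ j ≠ none)).card : ℝ) ≤ s)).card : ℝ) *
      Real.exp (-(s * Real.log (a / τ))) ≤ (1 + τ) ^ n := by
    rw [← htot, ← nsmul_eq_mul, ← sum_const]
    refine le_trans (sum_le_sum ?_) (sum_le_sum_of_subset_of_nonneg (filter_subset _ _) ?_)
    · intro γ hγ; exact hlow γ (mem_filter.mp hγ).2
    · intro γ _ _; rw [hprod]; positivity
  have h2 : (1 + τ) ^ n ≤ Real.exp (τ * n) := by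
    rw [mul_comm, Real.exp_nat_mul]
    exact pow_le_pow_left₀ (by positivity) (by linarith [Real.add_one_le_exp τ]) n
  have h3 : Real.exp (τ * n) = Real.exp (τ * n + s * Real.log (a / τ)) *
      Real.exp (-(s * Real.log (a / τ))) := by
    rw [← Real.exp_add]; congr 1; ring
  have h4 := h1.trans h2
  rw [h3] at h4
  exact le_of_mul_le_mul_right h4 (Real.exp_pos _)

theorem count_fractions {P : Finset Cir} {b : ℕ} (hb : 0 < b) (hP : ∀ z ∈ P, b • z = 0) {r : ℝ}
    (hr : r ≤ 1 / (8 * b)) {a : ℕ} (ha : 1 ≤ a) {cell : Cir → Fin a}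
    (hcell : ∀ x y, cell x = cell y → ‖x - y‖ ≤ 1 / (4 * b)) {τ : ℝ} (hτ0 : 0 < τ) (hτ1 : τ ≤ 1)
    (s : ℝ) (L : ℕ) (Y : Finset Cir)
    (hY : ∀ y ∈ Y, 2 ^ L ≤ addOrderOf y ∧ addOrderOf y < 2 ^ (L + 1) ∧
      ∃ x, (badCount P r (2 * L + 5) x : ℝ) ≤ s ∧ ‖x - y‖ ≤ 1 / ((addOrderOf y : ℝ) ^ 2)) :
    (Y.card : ℝ) ≤ 33 * Real.exp (τ * (2 * L + 5 : ℕ) + (s + 1) * Real.log (a / τ)) := by
  classical
  have hb' : (1 : ℝ) ≤ b := by exact_mod_cast hb
  have hex : ∀ y : Cir, ∃ (x : Cir) (t : ℝ), y ∈ Y → (badCount P r (2 * L + 5) x : ℝ) ≤ s ∧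
      (t : Cir) = x - y ∧ |t| ≤ 1 / (2 ^ L) ^ 2 := by
    intro y
    by_cases hy : y ∈ Y
    · obtain ⟨h1, -, x, h3, h4⟩ := hY y hy
      obtain ⟨t, ht1, ht2⟩ := exists_lift (x - y)
      refine ⟨x, t, fun _ => ⟨h3, ht1, ?_⟩⟩
      rw [ht2]
      refine h4.trans (one_div_le_one_div_of_le (by positivity) ?_)
      have : ((2 ^ L : ℕ) : ℝ) ≤ addOrderOf y := by exact_mod_cast h1
      push_cast at this
      exact pow_le_pow_left₀ (by positivity) this 2
    · exact ⟨0, 0, fun h => absurd h hy⟩
  choose X t hX using hex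
  set B : ℝ := (2 ^ L) ^ 2 with hB
  have hB0 : 0 < B := by positivity
  set C := univ.filter (fun γ : Fin (2 * L + 5) → Option (Fin a) =>
      ((univ.filter (fun j => γ j ≠ none)).card : ℝ) ≤ s + 1) with hC
  have hmap : Y.card ≤ (C ×ˢ Icc (-16 : ℤ) 16).card := by
    apply card_le_card_of_injOn (fun y => (code P r cell (2 * L + 5) (X y), ⌊t y * (16 * B)⌋))
    · intro y hy
      obtain ⟨h1, -, h3⟩ := hX y hy
      simp only [coe_product, Set.mem_prod, mem_coe, hC, mem_filter, mem_univ, true_and, mem_Icc]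
      refine ⟨?_, ?_, ?_⟩
      · have : ((univ.filter (fun j => code P r cell (2 * L + 5) (X y) j ≠ none)).card : ℝ) ≤
            (badCount P r (2 * L + 5) (X y) + 1 : ℕ) := by
          exact_mod_cast code_count P r cell (2 * L + 5) (X y)
        push_cast at this
        linarith
      · rw [Int.le_floor]
        have := (abs_le.mp h3).1
        have h4 : 1 / B * (16 * B) = 16 := by field_simp
        push_cast
        nlinarith
      · rw [Int.floor_le_iff]
        have := (abs_le.mp h3).2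
        have h4 : 1 / B * (16 * B) = 16 := by field_simp
        push_cast
        nlinarith
    · intro y hy y' hy' heq
      simp only [Prod.mk.injEq] at heq
      obtain ⟨hc, hf⟩ := heq
      by_contra hne
      obtain ⟨h1, h2, -⟩ := hY y hy
      obtain ⟨h1', h2', -⟩ := hY y' hy'
      have hpos : 0 < addOrderOf y := lt_of_lt_of_le (by positivity) h1
      have hpos' : 0 < addOrderOf y' := lt_of_lt_of_le (by positivity) h1'
      have hsep := sep hpos hpos' (addOrderOf_nsmul_eq_zero y) (addOrderOf_nsmul_eq_zero y') hne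
      have hclose : 2 ^ (2 * L + 4) * ‖X y - X y'‖ ≤ 1 / 4 := by
        apply expansive
        intro j hj
        refine (code_close hb hP hr hcell hc j (by omega)).trans ?_
        apply one_div_le_one_div_of_le (by norm_num)
        linarith
      have e1 : (2 : ℝ) ^ (2 * L + 4) = 16 * B := by rw [hB]; ring
      rw [e1] at hclose
      have htt : |t y - t y'| * (16 * B) < 1 := by
        have := Int.abs_sub_lt_one_of_floor_eq_floor hf
        rw [← sub_mul, abs_mul, abs_of_pos (by positivity : (0 : ℝ) < 16 * B)] at this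
        exact this
      have e2 : y - y' = (X y - X y') - ((t y - t y' : ℝ) : Cir) := by
        rw [AddCircle.coe_sub, (hX y hy).2.1, (hX y' hy').2.1]; abel
      have h5 : ‖y - y'‖ ≤ ‖X y - X y'‖ + |t y - t y'| := by
        rw [e2]
        exact (norm_sub_le _ _).trans (by gcongr; exact norm_coe_le _)
      have h6 : (addOrderOf y : ℝ) * addOrderOf y' ≤ 4 * B := by
        have a1 : (addOrderOf y : ℝ) ≤ ((2 ^ (L + 1) : ℕ) : ℝ) := by exact_mod_cast h2.le
        have a2 : (addOrderOf y' : ℝ) ≤ ((2 ^ (L + 1) : ℕ) : ℝ) := by exact_mod_cast h2'.le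
        push_cast at a1 a2
        have : (4 : ℝ) * B = 2 ^ (L + 1) * 2 ^ (L + 1) := by rw [hB]; ring
        rw [this]
        exact mul_le_mul a1 a2 (by positivity) (by positivity)
      have h7 : 1 / (4 * B) ≤ ‖y - y'‖ :=
        (one_div_le_one_div_of_le (by positivity) h6).trans hsep
      rw [div_le_iff₀ (by positivity)] at h7
      nlinarith
  have h1 : (Y.card : ℝ) ≤ C.card * 33 := by
    rw [card_product] at hmap
    have : (Icc (-16 : ℤ) 16).card = 33 := by simp
    rw [this] at hmap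
    exact_mod_cast hmap
  have h2 := count_sparse ha hτ0 hτ1 (2 * L + 5) (s + 1)
  rw [← hC] at h2
  linarith

end Pool.Agent.H285Z.TP
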