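import Pool.Agent.H285Z.TP.Good

/-! The union bound. -/

set_option autoImplicit false

open Finset Filter Topology

namespace Pool.Agent.H285Z.TP

theorem card_biUnion_le_real {ι : Type*} (s : Finset ι) (f : ι → Finset ℕ) (B : ι → ℝ)
    (h : ∀ i ∈ s, ((f i).card : ℝ) ≤ B i) : ((s.biUnion f).card : ℝ) ≤ ∑ i ∈ s, B i := by
  refine le_trans (Nat.cast_le.mpr card_biUnion_le) ?_
  push_cast
  exact sum_le_sum h

theorem card_triple {ι : Type*} (s : Finset ι) (K : ℕ) (f : ι → ℕ → ℂ → Finset ℕ) (B : ℝ)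
    (hB : 0 ≤ B) (h : ∀ i ∈ s, ∀ k ∈ Icc 1 K, ∀ u ∈ phases, ((f i k u).card : ℝ) ≤ B) :
    ((s.biUnion (fun i => (Icc 1 K).biUnion (fun k => phases.biUnion (f i k)))).card : ℝ) ≤
      s.card * (K * (4 * B)) := by
  refine (card_biUnion_le_real _ _ (fun _ => K * (4 * B)) fun i hi => ?_).trans (by simp)
  refine (card_biUnion_le_real _ _ (fun _ => 4 * B) fun k hk => ?_).trans (by simp)
  refine (card_biUnion_le_real _ _ (fun _ => B) fun u hu => h i hi k hk u hu).trans ?_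
  rw [sum_const, nsmul_eq_mul]
  have : (phases.card : ℝ) ≤ 4 := by exact_mod_cast card_phases
  gcongr

theorem mem_orbits_nsmul {Z : Finset Cir} {M : ℕ} (hZ : ∀ z ∈ Z, 2 ^ M • z = z) :
    ∀ z ∈ orbits Z M, (2 ^ M - 1) • z = 0 := by
  classical
  intro z hz
  obtain ⟨z0, hz0, hz'⟩ := mem_biUnion.mp hz
  obtain ⟨i, -, hi⟩ := mem_image.mp hz'
  have e : (2 ^ M - 1) • z0 = 0 := by
    have := hZ z0 hz0
    have e2 : 2 ^ M = (2 ^ M - 1) + 1 := by
      have : 0 < 2 ^ M := by positivity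
      omega
    rw [e2, add_nsmul, one_nsmul] at this
    simpa using this
  rw [← hi, smul_comm, e, smul_zero]

open Classical in
theorem key {ε σ : ℝ} (hε0 : 0 < ε) (hε1 : ε ≤ 1) (hσ : 0 < σ) (K l : ℕ) :
    ∃ M0 : ℕ, ∀ M : ℕ, M.Prime → M0 ≤ M → ∀ Z : Finset Cir, Z.card ≤ l →
      (∀ z ∈ Z, z ≠ 0 ∧ 2 ^ M • z = z) →
      ∃ r δ : ℝ, 0 < r ∧ 0 < δ ∧ ∃ R0 : ℕ, ∀ R : ℕ, R0 ≤ R →
        (((Ico R (2 * R)).filter (fun c => ¬ GoodC (orbits Z M) r δ ε K c)).card : ℝ) ≤ σ * R := by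
  refine ⟨⌈16 * l * K / (ε ^ 2 * σ)⌉₊ + K + 1, fun M hM hM0 Z hZl hZ => ?_⟩
  have hM1 : 1 ≤ M := hM.one_le
  have hM' : (0 : ℝ) < M := by exact_mod_cast hM.pos
  have hMσ : 16 * l * K ≤ M * (ε ^ 2 * σ) := by
    have h1 : (16 * l * K / (ε ^ 2 * σ) : ℝ) ≤ M := by
      refine (Nat.le_ceil _).trans ?_
      exact_mod_cast (by omega : ⌈16 * l * K / (ε ^ 2 * σ)⌉₊ ≤ M)
    rwa [div_le_iff₀ (by positivity)] at h1
  set b := 2 ^ M - 1 with hb
  have hb0 : 0 < b := by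
    have : 2 ^ 1 ≤ 2 ^ M := Nat.pow_le_pow_right (by norm_num) hM1
    omega
  have hb' : (1 : ℝ) ≤ b := by exact_mod_cast hb0
  obtain ⟨a, cell, ha, hcell⟩ := exists_cells (ρ := 1 / (4 * b)) (by positivity)
  have ha' : (1 : ℝ) ≤ a := by exact_mod_cast ha
  set κ := ε ^ 2 / 8 with hκ
  have hκ0 : 0 < κ := by positivity
  have hκ1 : κ ≤ 1 := by rw [hκ]; nlinarith
  set τ := κ / 8 with hτ
  have hτ0 : 0 < τ := by positivity
  have hτ1 : τ ≤ 1 := by linarith
  set ℓ := Real.log (a / τ) with hℓ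
  have hℓ0 : 0 ≤ ℓ := Real.log_nonneg (by rw [le_div_iff₀ hτ0]; linarith)
  set δ := τ / (ℓ + 1) with hδ
  have hδ0 : 0 < δ := by positivity
  have hδℓ : δ * (ℓ + 1) = τ := by rw [hδ]; field_simp
  have hδ1 : δ ≤ 1 := by nlinarith
  set Λ := ⌈14 * 2 ^ M * (K + 1 : ℝ) / ε⌉₊ + 1 with hΛ
  have hΛ1 : 1 ≤ Λ := by omega
  have hΛ2 : 14 * 2 ^ M * (K + 1 : ℝ) / ε ≤ Λ := by
    refine (Nat.le_ceil _).trans ?_
    exact_mod_cast (by omega : ⌈14 * 2 ^ M * (K + 1 : ℝ) / ε⌉₊ ≤ Λ)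
  set ρ := Real.exp (-(κ / 2)) with hρ
  have hρ0 : 0 ≤ ρ := (Real.exp_pos _).le
  have hρ1 : ρ < 1 := by rw [hρ, Real.exp_lt_one_iff]; linarith
  set C := 33 * Real.exp (5 * κ / 4 + ℓ + κ * K) * (K * (4 * (1 + Λ))) with hC
  have hC0 : 0 ≤ C := by positivity
  obtain ⟨L1, hL1, hL1σ⟩ : ∃ L1 : ℕ, K + 1 ≤ L1 ∧ C * (ρ ^ L1 / (1 - ρ)) ≤ σ / 2 := by
    have h1 : Tendsto (fun L : ℕ => C * (ρ ^ L / (1 - ρ))) atTop (𝓝 (C * (0 / (1 - ρ)))) :=
      ((tendsto_pow_atTop_nhds_zero_of_lt_one hρ0 hρ1).div_const _).const_mul _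
    simp only [zero_div, mul_zero] at h1
    obtain ⟨L, hL⟩ := ((h1.eventually (ge_mem_nhds (half_pos hσ))).and
      (eventually_ge_atTop (K + 1))).exists
    exact ⟨L, hL.2, hL.1⟩
  set r : ℝ := 1 / (8 * 2 ^ L1 * (b : ℝ)) with hr
  have hr0 : 0 < r := by positivity
  have hrb : r ≤ 1 / (8 * b) := by
    apply one_div_le_one_div_of_le (by positivity)
    have : (1 : ℝ) ≤ 2 ^ L1 := one_le_pow₀ (by norm_num)
    nlinarith
  refine ⟨r, δ, hr0, hδ0, 8 * 2 ^ L1 * b, fun R hR => ?_⟩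
  have hbR : b ≤ R := by
    have : 1 ≤ 8 * 2 ^ L1 := Nat.one_le_iff_ne_zero.mpr (by positivity)
    nlinarith
  have hbR' : (b : ℝ) ≤ R := by exact_mod_cast hbR
  set B1 := Z.biUnion (fun z => (Icc 1 K).biUnion (fun k => phases.biUnion (fun u =>
    (Ico R (2 * R)).filter (fun c => ε * M < SS u (k * c) M z)))) with hB1
  set B2 := (Ico L1 (Λ * R + 1)).biUnion (fun L => (typ (orbits Z M) r δ (Λ * R) L).biUnion
    (fun y => (Icc 1 K).biUnion (fun k => phases.biUnion (fun u =>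
    (Ico R (2 * R)).filter (fun c => ε * (L - K : ℕ) < SS u (k * c) (L - K) y))))) with hB2
  have hsub : (Ico R (2 * R)).filter (fun c => ¬ GoodC (orbits Z M) r δ ε K c) ⊆ B1 ∪ B2 := by
    intro c hc
    obtain ⟨hc1, hc2⟩ := mem_filter.mp hc
    by_contra hn
    rw [mem_union, not_or] at hn
    apply hc2
    apply good_of_not_bad hε0 hM1 (fun z hz => (hZ z hz).2) hδ0 hδ1 hΛ2 hΛ1 hL1 hR
      (mem_Ico.mp hc1).2 hr
    · intro z hz k hk u hu
      by_contra hlt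
      apply hn.1
      simp only [hB1, mem_biUnion, mem_filter]
      exact ⟨z, hz, k, hk, u, hu, hc1, not_le.mp hlt⟩
    · intro L hL y hy k hk u hu
      by_contra hlt
      apply hn.2
      simp only [hB2, mem_biUnion, mem_filter]
      exact ⟨L, hL, y, hy, k, hk, u, hu, hc1, not_le.mp hlt⟩
  have hR0 : (0 : ℝ) ≤ R := by positivity
  have c1 : (B1.card : ℝ) ≤ σ / 2 * R := by
    refine (card_triple Z K _ (1 / (ε ^ 2 * M) * (2 * R)) (by positivity) ?_).trans ?_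
    · intro z hz k hk u hu
      have hk' := mem_Icc.mp hk
      have hbz : b • z = 0 := by
        have := (hZ z hz).2
        have e2 : 2 ^ M = b + 1 := by omega
        rw [e2, add_nsmul, one_nsmul] at this
        simpa using this
      refine (card_le_of_blocks (fun c => ε * M < SS u (k * c) M z) hb0 (by positivity)
        (fun c0 => second_moment (norm_phases hu) hε0 k hM.pos z hbz
          (orbit_inj_mul hM (hZ z hz).1 (hZ z hz).2 hk'.1 (by omega)) c0) R).trans ?_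
      gcongr
      linarith
    · have hl : (Z.card : ℝ) ≤ l := by exact_mod_cast hZl
      have e : (l : ℝ) * (K * (4 * (1 / (ε ^ 2 * M) * (2 * R)))) =
          (16 * l * K) / (M * ε ^ 2) / 2 * R := by field_simp; ring
      calc (Z.card : ℝ) * (K * (4 * (1 / (ε ^ 2 * M) * (2 * R))))
          ≤ l * (K * (4 * (1 / (ε ^ 2 * M) * (2 * R)))) := by gcongr
        _ = (16 * l * K) / (M * ε ^ 2) / 2 * R := e
        _ ≤ σ / 2 * R := by
          gcongr
          rw [div_le_iff₀ (by positivity)]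
          linarith
  have c2 : (B2.card : ℝ) ≤ σ / 2 * R := by
    refine (card_biUnion_le_real _ _ (fun L => C * R * ρ ^ L) fun L hL => ?_).trans ?_
    · have hL' := (mem_Ico.mp hL).1
      refine (card_triple _ K _ (Real.exp (-(κ * (L - K : ℕ))) * ((1 + Λ) * R)) (by positivity)
        ?_).trans ?_
      · intro y hy k hk u hu
        have hk' := mem_Icc.mp hk
        unfold typ at hy
        rw [mem_filter, Set.Finite.mem_toFinset] at hy
        obtain ⟨⟨hy1, hy2⟩, hy3, -, -⟩ := hy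
        have hkq : k * 2 ^ (L - K) ≤ addOrderOf y := by
          refine le_trans ?_ hy3
          have e : 2 ^ L = 2 ^ K * 2 ^ (L - K) := by rw [← pow_add]; congr 1; omega
          rw [e]
          exact Nat.mul_le_mul_right _ (hk'.2.trans Nat.lt_two_pow_self.le)
        refine (card_le_of_blocks (fun c => ε * (L - K : ℕ) < SS u (k * c) (L - K) y) hy1
          (by positivity) (fun c0 => large_dev (norm_phases hu) hε0 hε1 hk'.1 y (L - K) hkq c0)
          R).trans ?_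
        have : (addOrderOf y : ℝ) ≤ ((Λ * R : ℕ) : ℝ) := by exact_mod_cast hy2
        push_cast at this
        rw [hκ]
        gcongr
        linarith
      · have h1 := count_fractions hb0 (mem_orbits_nsmul fun z hz => (hZ z hz).2) hrb ha hcell
          hτ0 hτ1 (δ * (2 * L + 5 : ℕ)) L (typ (orbits Z M) r δ (Λ * R) L) (fun y hy => by
            unfold typ at hy
            exact (mem_filter.mp hy).2)
        rw [← hℓ] at h1
        have h2 : Real.exp (τ * (2 * L + 5 : ℕ) + (δ * (2 * L + 5 : ℕ) + 1) * ℓ) *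
            Real.exp (-(κ * (L - K : ℕ))) ≤ Real.exp (5 * κ / 4 + ℓ + κ * K) * ρ ^ L := by
          rw [hρ, ← Real.exp_nat_mul, ← Real.exp_add, ← Real.exp_add, Real.exp_le_exp,
            Nat.cast_sub (by omega)]
          push_cast
          have h3 : δ * ℓ ≤ τ := by nlinarith
          have h4 : δ * ℓ * (2 * L + 5) ≤ τ * (2 * L + 5) := by gcongr
          have h5 : τ * (2 * L + 5) = κ * L / 4 + 5 * κ / 8 := by rw [hτ]; ring
          nlinarith
        calc ((typ (orbits Z M) r δ (Λ * R) L).card : ℝ) *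
              (K * (4 * (Real.exp (-(κ * (L - K : ℕ))) * ((1 + Λ) * R))))
            ≤ 33 * Real.exp (τ * (2 * L + 5 : ℕ) + (δ * (2 * L + 5 : ℕ) + 1) * ℓ) *
              (K * (4 * (Real.exp (-(κ * (L - K : ℕ))) * ((1 + Λ) * R)))) := by gcongr
          _ = 33 * (Real.exp (τ * (2 * L + 5 : ℕ) + (δ * (2 * L + 5 : ℕ) + 1) * ℓ) *
              Real.exp (-(κ * (L - K : ℕ)))) * (K * (4 * (1 + Λ))) * R := by ring
          _ ≤ 33 * (Real.exp (5 * κ / 4 + ℓ + κ * K) * ρ ^ L) * (K * (4 * (1 + Λ))) * R := by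
            gcongr
          _ = C * R * ρ ^ L := by rw [hC]; ring
    · rw [← mul_sum]
      have h1 := geom_sum_Ico_le_of_lt_one (m := L1) (n := Λ * R + 1) hρ0 hρ1
      calc C * R * ∑ i ∈ Ico L1 (Λ * R + 1), ρ ^ i ≤ C * R * (ρ ^ L1 / (1 - ρ)) := by gcongr
        _ = C * (ρ ^ L1 / (1 - ρ)) * R := by ring
        _ ≤ σ / 2 * R := by gcongr
  have c3 : (((Ico R (2 * R)).filter (fun c => ¬ GoodC (orbits Z M) r δ ε K c)).card : ℝ) ≤
      B1.card + B2.card := by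
    exact_mod_cast (card_le_card hsub).trans (card_union_le _ _)
  linarith

end Pool.Agent.H285Z.TP
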