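import Pool.Agent.H285Z.TP.Meas
import Pool.Agent.H285Z.TP.Count

/-! Approximation of an invariant measure by a combination of boundedly many periodic orbits. -/

set_option autoImplicit false

open Finset Filter Topology MeasureTheory

namespace Pool.Agent.H285Z.TP

theorem exists_comb {ι : Type} [Fintype ι] (w : ι → ℝ) (hw0 : ∀ i, 0 < w i) (hw1 : ∑ i, w i = 1)
    {M : ℕ} (hM : 0 < M) (p : ι → Cir) (hp : ∀ i, 2 ^ M • p i = p i) :
    ∃ ν : Inv, ∀ f : Cir → ℝ, ∫ x, f x ∂(ν.1 : Measure Cir) =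
      ∑ i, w i * ((∑ j ∈ range M, f (2 ^ j • p i)) / M) := by
  have hM' : (0 : ℝ) < M := by exact_mod_cast hM
  set m : Measure Cir := ∑ i, ENNReal.ofReal (w i / M) • ∑ j ∈ range M, Measure.dirac (2 ^ j • p i)
    with hm
  have hprob : IsProbabilityMeasure m := by
    constructor
    rw [hm, Measure.finsetSum_apply]
    have : ∀ i, (ENNReal.ofReal (w i / M) • ∑ j ∈ range M, Measure.dirac (2 ^ j • p i)) Set.univ =
        ENNReal.ofReal (w i) := by
      intro i
      rw [Measure.smul_apply, Measure.finsetSum_apply]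
      simp only [measure_univ, sum_const, card_range, nsmul_eq_mul, mul_one, smul_eq_mul]
      rw [← ENNReal.ofReal_natCast, ← ENNReal.ofReal_mul (div_pos (hw0 i) hM').le]
      congr 1; field_simp
    simp_rw [this]
    rw [← ENNReal.ofReal_sum_of_nonneg (fun i _ => (hw0 i).le), hw1, ENNReal.ofReal_one]
  have hmeas : Measurable fun x : Cir => 2 • x := (continuous_nsmul 2).measurable
  refine ⟨⟨⟨m, hprob⟩, ?_⟩, ?_⟩
  · show m.map _ = m
    rw [hm, Measure.map_finset_sum hmeas.aemeasurable]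
    refine sum_congr rfl fun i _ => ?_
    rw [Measure.map_smul, Measure.map_finset_sum hmeas.aemeasurable]
    congr 1
    obtain ⟨n, rfl⟩ : ∃ n, M = n + 1 := ⟨M - 1, by omega⟩
    have e : ∀ j, Measure.map (fun x : Cir => 2 • x) (Measure.dirac (2 ^ j • p i)) =
        Measure.dirac (2 ^ (j + 1) • p i) := by
      intro j
      rw [Measure.map_dirac' hmeas, pow_succ', mul_nsmul']
    simp_rw [e]
    rw [sum_range_succ, sum_range_succ' _ n, hp i]
    simp
  · intro f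
    show ∫ x, f x ∂m = _
    have hint : ∀ i, Integrable f (∑ j ∈ range M, Measure.dirac (2 ^ j • p i)) := fun i =>
      integrable_finsetSum_measure.mpr fun j _ => integrable_dirac (by simp)
    rw [hm, integral_finsetSum_measure (fun i _ => (hint i).smul_measure (by simp))]
    refine sum_congr rfl fun i _ => ?_
    rw [integral_smul_measure, integral_finsetSum_measure (fun j _ => integrable_dirac (by simp)),
      ENNReal.toReal_ofReal (div_pos (hw0 i) hM').le]
    simp only [integral_dirac, smul_eq_mul]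
    ring

theorem approx (μ : Inv) {U : Set Inv} (hU : U ∈ 𝓝 μ) :
    ∃ l : ℕ, ∀ᶠ M : ℕ in atTop, ∃ Z : Finset Cir, Z.card ≤ l ∧ (∀ z ∈ Z, z ≠ 0 ∧ 2 ^ M • z = z) ∧
      ∃ ν ∈ U, ∀ r : ℝ, ∫ x, bump (orbits Z M) r x ∂(ν.1 : Measure Cir) = 0 := by
  classical
  obtain ⟨V, hV, hVU⟩ := (mem_nhds_subtype _ _ _).mp hU
  obtain ⟨F, η, hη, hF⟩ := nhds_basis μ.1 hV
  refine ⟨F.card + 1, ?_⟩
  have hev : ∀ᶠ M : ℕ in atTop, ∀ f ∈ F, ∀ x z : Cir, ‖x - z‖ ≤ 1 / ((2 ^ M - 1 : ℕ) : ℝ) →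
      dist ((∑ j ∈ range M, f (2 ^ j • x)) / M) ((∑ j ∈ range M, f (2 ^ j • z)) / M) ≤ η / 2 := by
    rw [eventually_all_finset]
    exact fun f _ => shadow f (half_pos hη)
  filter_upwards [hev, eventually_ge_atTop 2] with M hM hM2
  have hM' : (0 : ℝ) < M := by exact_mod_cast (by omega : 0 < M)
  set Φ : Cir → (F → ℝ) := fun x f => (∑ j ∈ range M, f.1 (2 ^ j • x)) / M with hΦ
  have hΦc : ∀ f : F, Continuous fun x => Φ x f := by
    intro f
    simp only [hΦ]
    fun_prop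
  set S : Set (F → ℝ) := Φ '' {z | z ≠ 0 ∧ 2 ^ M • z = z} with hS
  have hb : 3 ≤ 2 ^ M - 1 := by
    have : 2 ^ 2 ≤ 2 ^ M := Nat.pow_le_pow_right (by norm_num) hM2
    omega
  have hmem : ∀ x, Φ x ∈ Metric.cthickening (η / 2) (convexHull ℝ S) := by
    intro x
    obtain ⟨z, hz0, hz1, hz2⟩ := exists_close_torsion hb x
    have hz3 : 2 ^ M • z = z := by
      have e2 : 2 ^ M = (2 ^ M - 1) + 1 := by omega
      rw [e2, add_nsmul, hz1, one_nsmul, zero_add]
    apply Metric.mem_cthickening_of_dist_le (Φ x) (Φ z) _ _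
      (subset_convexHull ℝ S ⟨z, ⟨hz0, hz3⟩, rfl⟩)
    rw [dist_pi_le_iff (half_pos hη).le]
    intro f
    exact hM f.1 f.2 x z hz2
  have hint := ((convex_convexHull ℝ S).cthickening (η / 2)).integral_mem
    (μ := (μ.1 : Measure Cir)) Metric.isClosed_cthickening (Eventually.of_forall hmem)
    (integrable_cont _ (continuous_pi hΦc))
  obtain ⟨v, hv, hdist⟩ := Metric.mem_thickening_iff.mp
    (Metric.cthickening_subset_thickening' hη (half_lt_self hη) _ hint)
  obtain ⟨ι, hι, z, w, hz, haff, hw0, hw1, hwv⟩ := eq_pos_convex_span_of_mem_convexHull hv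
  have hp : ∀ i, ∃ p : Cir, (p ≠ 0 ∧ 2 ^ M • p = p) ∧ Φ p = z i := fun i => hz ⟨i, rfl⟩
  choose p hp hpz using hp
  obtain ⟨ν, hν⟩ := exists_comb w hw0 hw1 (by omega : 0 < M) p (fun i => (hp i).2)
  refine ⟨univ.image p, ?_, ?_, ν, hVU (hF _ fun f hf => ?_), fun r => ?_⟩
  · refine card_image_le.trans (haff.card_le_finrank_succ.trans ?_)
    have := Submodule.finrank_le (vectorSpan ℝ (Set.range z))
    simp only [Module.finrank_fintype_fun_eq_card, Fintype.card_coe] at this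
    omega
  · intro y hy
    obtain ⟨i, -, rfl⟩ := mem_image.mp hy
    exact hp i
  · have h1 : ∫ x, f x ∂(ν.1 : Measure Cir) = v ⟨f, hf⟩ := by
      rw [hν, ← hwv, Finset.sum_apply]
      refine sum_congr rfl fun i _ => ?_
      rw [← hpz i]; rfl
    have h2 : ∫ x, f x ∂(μ.1 : Measure Cir) = (∫ x, Φ x ∂(μ.1 : Measure Cir)) ⟨f, hf⟩ := by
      rw [eval_integral (fun g => integrable_cont _ (hΦc g))]
      simp only [hΦ]
      rw [integral_div, integral_birkhoff μ f.continuous]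
      field_simp
    rw [h1, h2, dist_comm]
    exact lt_of_le_of_lt (dist_le_pi_dist _ _ _) hdist
  · rw [hν]
    refine sum_eq_zero fun i _ => ?_
    rw [sum_eq_zero, zero_div, mul_zero]
    intro j hj
    apply bump_mem
    unfold orbits
    rw [mem_biUnion]
    exact ⟨p i, mem_image_of_mem _ (mem_univ i), mem_image.mpr ⟨j, hj, rfl⟩⟩

/-- all low Fourier coefficients of the dilate by `c` are small on `O` -/
def Small (O : Set Inv) (K c : ℕ) : Prop :=
  ∀ μ ∈ O, ∀ k ∈ Icc 1 K, ∀ u ∈ phases,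
    ∫ x, ph u ((k * c) • x) ∂(μ.1 : Measure Cir) ≤ 3 * (1 / ((K : ℝ) + 1))

open Classical in
theorem target {U : Set Inv} (hU : IsOpen U) (hne : U.Nonempty) (K : ℕ) {σ : ℝ} (hσ : 0 < σ) :
    ∃ O : Set Inv, IsOpen O ∧ O.Nonempty ∧ O ⊆ U ∧ ∀ᶠ R : ℕ in atTop,
      (((Ico R (2 * R)).filter (fun c => ¬ Small O K c)).card : ℝ) ≤ σ * R := by
  obtain ⟨μ, hμ⟩ := hne
  obtain ⟨l, hl⟩ := approx μ (hU.mem_nhds hμ)
  have hε0 : (0 : ℝ) < 1 / ((K : ℝ) + 1) := by positivity
  have hε1 : 1 / ((K : ℝ) + 1) ≤ 1 := by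
    rw [div_le_one (by positivity)]; linarith [Nat.cast_nonneg (α := ℝ) K]
  obtain ⟨M0, hM0⟩ := key hε0 hε1 hσ K l
  obtain ⟨M1, hM1⟩ := eventually_atTop.mp hl
  obtain ⟨M, hM, hMp⟩ := Nat.exists_infinite_primes (M0 + M1)
  obtain ⟨Z, hZl, hZ, ν, hνU, hν⟩ := hM1 M (by omega)
  obtain ⟨r, δ, hr, hδ, R0, hR0⟩ := hM0 M hMp (by omega) Z hZl hZ
  refine ⟨U ∩ {μ | ∫ x, bump (orbits Z M) r x ∂(μ.1 : Measure Cir) < 1 / ((K : ℝ) + 1) * δ},
    hU.inter ?_, ⟨ν, hνU, ?_⟩, Set.inter_subset_left, ?_⟩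
  · refine isOpen_lt ?_ continuous_const
    exact (ProbabilityMeasure.continuous_integral_continuousMap
      (⟨bump (orbits Z M) r, continuous_bump _ _⟩ : C(Cir, ℝ))).comp continuous_subtype_val
  · exact lt_of_eq_of_lt (hν r) (by positivity)
  · filter_upwards [eventually_ge_atTop R0] with R hR
    refine le_trans (Nat.cast_le.mpr (card_le_card fun c hc => ?_)) (hR0 R hR)
    rw [mem_filter] at hc ⊢
    refine ⟨hc.1, fun hg => hc.2 fun μ hμ k hk u hu => good_bound hr hδ hg μ (le_of_lt hμ.2) hk hu⟩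

end Pool.Agent.H285Z.TP
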