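import Pool.Agent.H285Z.TP.Dense

/-! A sequence of multipliers along which the dilates of a generic invariant measure of the doubling
map equidistribute. -/

set_option autoImplicit false

open Finset Filter Topology MeasureTheory

namespace Pool.Agent.H285Z.TP

theorem weyl (μ : Measure Cir) [IsProbabilityMeasure μ] (c : ℕ → ℕ)
    (h : ∀ k : ℕ, 1 ≤ k → Tendsto (fun n => ∫ x, ee ((k * c n) • x) ∂μ) atTop (𝓝 0))
    (f : C(Cir, ℝ)) :
    Tendsto (fun n => ∫ x, f (c n • x) ∂μ) atTop (𝓝 (∫ x, f x)) := by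
  have hvol : IsProbabilityMeasure (volume : Measure Cir) := ⟨by simp⟩
  have hcont : ∀ (g : C(Cir, ℂ)) (n : ℕ), Continuous fun x : Cir => g (c n • x) :=
    fun g n => g.continuous.comp (continuous_nsmul _)
  have hlip : ∀ (ν : Measure Cir) [IsProbabilityMeasure ν] (m : ℕ) (g g' : C(Cir, ℂ)),
      dist (∫ x, g (m • x) ∂ν) (∫ x, g' (m • x) ∂ν) ≤ dist g g' := by
    intro ν _ m g g'
    rw [dist_eq_norm, ← integral_sub (integrable_cont _ (by fun_prop))
      (integrable_cont _ (by fun_prop))]
    have := norm_integral_le_of_norm_le_const (μ := ν) (C := dist g g')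
      (f := fun x => g (m • x) - g' (m • x)) (Eventually.of_forall fun x => by
        rw [← dist_eq_norm]; exact ContinuousMap.dist_apply_le_dist _)
    simpa using this
  let S : Submodule ℂ C(Cir, ℂ) :=
    { carrier := {g | Tendsto (fun n => ∫ x, g (c n • x) ∂μ) atTop (𝓝 (∫ x, g x))}
      add_mem' := by
        intro g g' hg hg'
        simp only [Set.mem_setOf_eq, ContinuousMap.add_apply] at hg hg' ⊢
        rw [integral_add (integrable_cont _ g.continuous) (integrable_cont _ g'.continuous)]
        refine (hg.add hg').congr fun n => ?_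
        rw [integral_add (integrable_cont _ (hcont g n)) (integrable_cont _ (hcont g' n))]
      zero_mem' := by simp
      smul_mem' := by
        intro a g hg
        simp only [Set.mem_setOf_eq, ContinuousMap.smul_apply, integral_smul] at hg ⊢
        exact hg.const_smul a }
  have hclosed : IsClosed (S : Set C(Cir, ℂ)) := by
    have h1 : Equicontinuous (fun (n : ℕ) (g : C(Cir, ℂ)) => ∫ x, g (c n • x) ∂μ) := by
      intro g
      rw [Metric.equicontinuousAt_iff]
      intro ε hε
      exact ⟨ε, hε, fun g' hg' n => lt_of_le_of_lt (hlip μ _ _ _) (by rwa [dist_comm])⟩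
    have h2 : Continuous (fun g : C(Cir, ℂ) => ∫ x, g x) := by
      refine (LipschitzWith.of_dist_le_mul (K := 1) fun g g' => ?_).continuous
      simpa using hlip volume 1 g g'
    exact h1.isClosed_setOfPred_tendsto h2
  have hfour : ∀ k : ℤ, fourier k ∈ S := by
    intro k
    show Tendsto (fun n => ∫ x, fourier k (c n • x) ∂μ) atTop (𝓝 (∫ x : Cir, fourier k x))
    by_cases hk : k = 0
    · subst hk; simp
    have hz : ∫ x : Cir, fourier k x = 0 :=
      integral_eq_zero_of_add_right_eq_neg (μ := volume) (fourier_add_half_inv_index hk one_pos)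
    rw [hz]
    obtain ⟨m, rfl | rfl⟩ := Int.eq_nat_or_neg k
    · refine (h m (by omega)).congr fun n => ?_
      congr 1; funext x
      rw [fourier_apply, natCast_zsmul, mul_nsmul']; rfl
    · have := (Complex.continuous_conj.tendsto 0).comp (h m (by omega))
      rw [map_zero] at this
      refine this.congr fun n => ?_
      simp only [Function.comp]
      rw [← integral_conj]
      congr 1; funext x
      rw [fourier_neg, fourier_apply, natCast_zsmul, mul_nsmul']; rfl
  have htop : S = ⊤ := by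
    rw [eq_top_iff, ← span_fourier_closure_eq_top]
    apply Submodule.topologicalClosure_minimal _ _ hclosed
    rw [Submodule.span_le]
    rintro _ ⟨k, rfl⟩
    exact hfour k
  have hg : (⟨fun x => (f x : ℂ), by fun_prop⟩ : C(Cir, ℂ)) ∈ S := by rw [htop]; trivial
  have hg' : Tendsto (fun n => ∫ x, (f (c n • x) : ℂ) ∂μ) atTop (𝓝 (∫ x, (f x : ℂ))) := hg
  simp_rw [integral_complex_ofReal] at hg'
  have := (Complex.continuous_re.tendsto _).comp hg'
  simpa [Function.comp_def] using this

theorem norm_le_of_phases (μ : Measure Cir) [IsProbabilityMeasure μ] (m : ℕ) {B : ℝ}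
    (h : ∀ u ∈ phases, ∫ x, ph u (m • x) ∂μ ≤ B) : ‖∫ x, ee (m • x) ∂μ‖ ≤ 2 * B := by
  have hc : Continuous fun x : Cir => ee (m • x) := continuous_ee.comp (continuous_nsmul _)
  have e : ∀ u : ℂ, ∫ x, ph u (m • x) ∂μ = (u * ∫ x, ee (m • x) ∂μ).re := by
    intro u
    rw [← integral_const_mul]
    exact integral_re (𝕜 := ℂ) (integrable_cont _ (continuous_const.mul hc))
  have h1 := h 1 (by simp [phases])
  have h2 := h (-1) (by simp [phases])
  have h3 := h Complex.I (by simp [phases])
  have h4 := h (-Complex.I) (by simp [phases])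
  rw [e] at h1 h2 h3 h4
  simp at h1 h2 h3 h4
  refine (Complex.norm_le_abs_re_add_abs_im _).trans ?_
  have a1 : |(∫ x, ee (m • x) ∂μ).re| ≤ B := abs_le.mpr ⟨by linarith, h1⟩
  have a2 : |(∫ x, ee (m • x) ∂μ).im| ≤ B := abs_le.mpr ⟨by linarith, h4⟩
  linarith

instance : CompactSpace Inv := by
  apply isCompact_iff_compactSpace.mp
  apply IsClosed.isCompact
  have hm : Measurable fun x : Cir => 2 • x := (continuous_nsmul 2).measurable
  have : {ν : ProbabilityMeasure Cir |
      (ν : Measure Cir).map (fun x : Cir => 2 • x) = (ν : Measure Cir)} =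
      {ν | ν.map hm.aemeasurable = ν} := by
    ext ν
    simp only [Set.mem_setOf_eq]
    rw [← ProbabilityMeasure.toMeasure_injective.eq_iff, ProbabilityMeasure.toMeasure_map]
  show IsClosed {ν : ProbabilityMeasure Cir |
      (ν : Measure Cir).map (fun x : Cir => 2 • x) = (ν : Measure Cir)}
  rw [this]
  exact isClosed_eq (ProbabilityMeasure.continuous_map (continuous_nsmul 2)) continuous_id

instance : Nonempty Inv :=
  ⟨⟨⟨Measure.dirac 0, inferInstance⟩, by
    show Measure.map _ (Measure.dirac 0) = Measure.dirac 0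
    rw [Measure.map_dirac' (continuous_nsmul 2).measurable, smul_zero]⟩⟩

instance : SecondCountableTopology Inv := by
  letI := TopologicalSpace.metrizableSpaceMetric (ProbabilityMeasure Cir)
  haveI : SecondCountableTopology (ProbabilityMeasure Cir) := inferInstance
  infer_instance

theorem generic_equidistribution : ∃ c : ℕ → ℕ, StrictMono c ∧
    {μ : Inv | ∀ f : C(Cir, ℝ), Tendsto (fun n => ∫ x, f (c n • x) ∂(μ.1 : Measure Cir)) atTop
      (𝓝 (∫ x, f x))} ∈ residual Inv := by
  classical
  have hbasis := TopologicalSpace.isBasis_countableBasis Inv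
  obtain ⟨e, he⟩ := (TopologicalSpace.countable_countableBasis Inv).exists_eq_range (by
    obtain ⟨μ⟩ := (inferInstance : Nonempty Inv)
    obtain ⟨t, ht, -⟩ := hbasis.exists_subset_of_mem_open (Set.mem_univ μ) isOpen_univ
    exact ⟨t, ht⟩)
  have hmem : ∀ m, e m ∈ TopologicalSpace.countableBasis Inv := fun m => he ▸ ⟨m, rfl⟩
  have hT := fun i : ℕ => target (hbasis.isOpen (hmem (Nat.unpair i).1))
    (TopologicalSpace.nonempty_of_mem_countableBasis (hmem _)) (Nat.unpair i).2
    (σ := (1 / 2) ^ (i + 2)) (by positivity)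
  choose O hOo hOn hOs hOR using hT
  have hstep : ∀ n N : ℕ, ∃ c, N < c ∧ ∀ i ∈ range (n + 1), Small (O i) (Nat.unpair i).2 c := by
    intro n N
    obtain ⟨R, hR1, hR2⟩ := (((eventually_all_finset (range (n + 1))).mpr
      (fun i _ => hOR i)).and (eventually_gt_atTop N)).exists
    by_contra hno
    push Not at hno
    have hsub : Ico R (2 * R) ⊆ (range (n + 1)).biUnion (fun i =>
        (Ico R (2 * R)).filter (fun c => ¬ Small (O i) (Nat.unpair i).2 c)) := by
      intro c hc
      obtain ⟨i, hi, hi'⟩ := hno c (lt_of_lt_of_le hR2 (mem_Ico.mp hc).1)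
      exact mem_biUnion.mpr ⟨i, hi, mem_filter.mpr ⟨hc, hi'⟩⟩
    have h1 := (Nat.cast_le (α := ℝ).mpr (card_le_card hsub)).trans
      (card_biUnion_le_real _ _ _ hR1)
    rw [← sum_mul, Nat.card_Ico] at h1
    have h2 : ∑ i ∈ range (n + 1), (1 / 2 : ℝ) ^ (i + 2) ≤ 1 / 2 := by
      simp_rw [pow_add]
      rw [← sum_mul]
      have := sum_geometric_two_le (n + 1)
      linarith
    have h3 : ((2 * R - R : ℕ) : ℝ) = R := by congr 1; omega
    have h4 : (0 : ℝ) < R := by exact_mod_cast (by omega : 0 < R)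
    rw [h3] at h1
    nlinarith
  choose g hg1 hg2 using hstep
  let c : ℕ → ℕ := fun n => Nat.rec (g 0 0) (fun n prev => g (n + 1) prev) n
  have hc : ∀ n, ∀ i ∈ range (n + 1), Small (O i) (Nat.unpair i).2 (c n) := by
    intro n
    cases n with
    | zero => exact hg2 0 0
    | succ n => exact hg2 (n + 1) (c n)
  refine ⟨c, strictMono_nat_of_lt_succ fun n => hg1 (n + 1) (c n), ?_⟩
  have hres : (⋂ K : ℕ, ⋃ m : ℕ, O (Nat.pair m K)) ∈ residual Inv := by
    rw [countable_iInter_mem]
    intro K
    refine residual_of_dense_open (isOpen_iUnion fun m => hOo _) ?_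
    rw [hbasis.dense_iff]
    intro o ho _
    rw [he] at ho
    obtain ⟨m, rfl⟩ := ho
    obtain ⟨μ, hμ⟩ := hOn (Nat.pair m K)
    refine ⟨μ, ?_, Set.mem_iUnion.mpr ⟨m, hμ⟩⟩
    simpa using hOs _ hμ
  refine mem_of_superset hres fun μ hμ f => weyl _ c (fun k hk => ?_) f
  rw [tendsto_zero_iff_norm_tendsto_zero, Metric.tendsto_atTop]
  intro ε hε
  obtain ⟨K0, hK0⟩ := exists_nat_one_div_lt (show 0 < ε / 6 by positivity)
  obtain ⟨m, hm⟩ := Set.mem_iUnion.mp (Set.mem_iInter.mp hμ (K0 + k))
  refine ⟨Nat.pair m (K0 + k), fun n hn => ?_⟩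
  have h1 := hc n _ (mem_range.mpr (Nat.lt_succ_of_le hn))
  rw [Nat.unpair_pair] at h1
  have h2 := norm_le_of_phases _ (k * c n) (h1 μ hm k (mem_Icc.mpr ⟨hk, by simp⟩))
  have h3 : 1 / (((K0 + k : ℕ) : ℝ) + 1) ≤ 1 / ((K0 : ℝ) + 1) := by
    apply one_div_le_one_div_of_le (by positivity)
    push_cast
    linarith [Nat.cast_nonneg (α := ℝ) k]
  rw [Real.dist_eq, sub_zero, abs_norm]
  simp only at h2
  linarith

end Pool.Agent.H285Z.TP
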