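import Pool.Agent.H285Z.TP.LD
import Pool.Agent.H285Z.TP.Code

/-! Most large multipliers are good for all points whose orbit mostly shadows a given finite union
of periodic orbits. -/

set_option autoImplicit false

open Finset

namespace Pool.Agent.H285Z.TP

theorem orbit_inj {M : ℕ} (hM : M.Prime) {w : Cir} (hw : w ≠ 0) (hper : 2 ^ M • w = w) :
    ∀ i < M, ∀ j < M, 2 ^ i • w = 2 ^ j • w → i = j := by
  have hit : ∀ i : ℕ, (fun x : Cir => 2 • x)^[i] w = 2 ^ i • w := by
    intro i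
    induction i with
    | zero => simp
    | succ i ih => rw [Function.iterate_succ_apply', ih, pow_succ', mul_nsmul']
  haveI : Fact M.Prime := ⟨hM⟩
  have hmin : Function.minimalPeriod (fun x : Cir => 2 • x) w = M := by
    apply Function.minimalPeriod_eq_prime
    · show _ = _
      rw [hit, hper]
    · intro h
      apply hw
      have h' : 2 • w = w := h
      rw [two_nsmul] at h'
      simpa using h'
  intro i hi j hj hij
  apply Function.iterate_injOn_Iio_minimalPeriod (f := fun x : Cir => 2 • x) (x := w)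
  · rw [hmin]; exact hi
  · rw [hmin]; exact hj
  · simp only; rw [hit, hit, hij]

theorem orbit_inj_mul {M : ℕ} (hM : M.Prime) {z : Cir} (hz : z ≠ 0) (hper : 2 ^ M • z = z)
    {k : ℕ} (hk : 1 ≤ k) (hkM : k < M) :
    ∀ i < M, ∀ j < M, k • (2 ^ i • z) = k • (2 ^ j • z) → i = j := by
  have hne : k • z ≠ 0 := by
    intro h
    obtain ⟨i, hi, j, hj, hij, he⟩ := exists_ne_map_eq_of_card_lt_of_maps_to
      (s := range M) (t := range k) (by simpa using hkM) (f := fun i => 2 ^ i % k)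
      (fun i _ => by simpa using Nat.mod_lt _ hk)
    apply hij
    apply orbit_inj hM hz hper i (mem_range.mp hi) j (mem_range.mp hj)
    rw [nsmul_eq_mod_nsmul (2 ^ i) h, nsmul_eq_mod_nsmul (2 ^ j) h]
    exact congrArg (· • z) he
  intro i hi j hj hij
  apply orbit_inj hM hne (by rw [smul_comm, hper]) i hi j hj
  rw [smul_comm, hij, smul_comm]

theorem SS_shift (u : ℂ) (m : ℕ) {M : ℕ} {z : Cir} (hper : 2 ^ M • z = z) (i : ℕ) :
    SS u m M (2 ^ i • z) = SS u m M z := by
  induction i with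
  | zero => simp
  | succ i ih =>
    rw [← ih]
    have h1 := sum_range_succ (fun j => ph u (m • (2 ^ j • (2 ^ i • z)))) M
    have h2 := sum_range_succ' (fun j => ph u (m • (2 ^ j • (2 ^ i • z)))) M
    have e1 : 2 ^ M • (2 ^ i • z) = 2 ^ 0 • (2 ^ i • z) := by
      rw [smul_comm, hper]; simp
    rw [e1] at h1
    have e2 : ∀ j, 2 ^ (j + 1) • (2 ^ i • z) = 2 ^ j • (2 ^ (i + 1) • z) := by
      intro j; rw [← mul_nsmul', ← mul_nsmul']; congr 1; ring
    simp_rw [e2] at h2
    unfold SS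
    linarith

theorem SS_le {u : ℂ} (hu : ‖u‖ = 1) (m n : ℕ) (x : Cir) : SS u m n x ≤ n := by
  unfold SS
  refine (sum_le_sum fun j _ => ph_le hu _).trans ?_
  simp

/-- the four phases -/
noncomputable def phases : Finset ℂ := {1, -1, Complex.I, -Complex.I}

theorem card_phases : phases.card ≤ 4 := card_le_four

theorem norm_phases {u : ℂ} (hu : u ∈ phases) : ‖u‖ = 1 := by
  simp only [phases, mem_insert, mem_singleton] at hu
  rcases hu with rfl | rfl | rfl | rfl <;> simp

open Classical in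
/-- union of the orbit segments -/
noncomputable def orbits (Z : Finset Cir) (M : ℕ) : Finset Cir :=
  Z.biUnion (fun z => (range M).image (fun j => 2 ^ j • z))

/-- the multiplier `c` is good -/
def GoodC (P : Finset Cir) (r δ ε : ℝ) (K c : ℕ) : Prop :=
  ∃ nmax : ℕ, ∀ k ∈ Icc 1 K, ∀ u ∈ phases, ∀ x : Cir, ∃ n : ℕ, 1 ≤ n ∧ n ≤ nmax ∧
    SS u (k * c) n x - 2 * ε * n - badCount P r n x / δ ≤ 0

theorem finite_ord (N : ℕ) : {y : Cir | 1 ≤ addOrderOf y ∧ addOrderOf y ≤ N}.Finite := by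
  refine ((Set.finite_Icc 1 N).biUnion (fun n hn =>
    AddCircle.finite_setOf_addOrderOf_eq (1 : ℝ) (n := n) hn.1)).subset ?_
  intro y hy
  simp only [Set.mem_iUnion]
  exact ⟨addOrderOf y, hy, rfl⟩

open Classical in
/-- the typical fractions at scale `L` -/
noncomputable def typ (P : Finset Cir) (r δ : ℝ) (N L : ℕ) : Finset Cir :=
  (finite_ord N).toFinset.filter (fun y => 2 ^ L ≤ addOrderOf y ∧ addOrderOf y < 2 ^ (L + 1) ∧
    ∃ x, (badCount P r (2 * L + 5) x : ℝ) ≤ δ * (2 * L + 5 : ℕ) ∧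
      ‖x - y‖ ≤ 1 / ((addOrderOf y : ℝ) ^ 2))

theorem good_of_not_bad {ε : ℝ} (hε0 : 0 < ε) {K M : ℕ} (hM : 1 ≤ M) {Z : Finset Cir}
    (hZ : ∀ z ∈ Z, 2 ^ M • z = z) {δ : ℝ} (hδ0 : 0 < δ) (hδ1 : δ ≤ 1) {Λ L1 R c : ℕ}
    (hΛ : 14 * 2 ^ M * (K + 1 : ℝ) / ε ≤ Λ) (hΛ1 : 1 ≤ Λ) (hL1 : K + 1 ≤ L1)
    (hR : 8 * 2 ^ L1 * (2 ^ M - 1) ≤ R) (hc : c < 2 * R) {r : ℝ}
    (hr : r = 1 / (8 * 2 ^ L1 * ((2 ^ M - 1 : ℕ) : ℝ)))
    (h1 : ∀ z ∈ Z, ∀ k ∈ Icc 1 K, ∀ u ∈ phases, SS u (k * c) M z ≤ ε * M)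
    (h2 : ∀ L ∈ Ico L1 (Λ * R + 1), ∀ y ∈ typ (orbits Z M) r δ (Λ * R) L, ∀ k ∈ Icc 1 K,
      ∀ u ∈ phases, SS u (k * c) (L - K) y ≤ ε * (L - K : ℕ)) :
    GoodC (orbits Z M) r δ ε K c := by
  classical
  set b := 2 ^ M - 1 with hb
  have hb0 : 0 < b := by
    have : 2 ^ 1 ≤ 2 ^ M := Nat.pow_le_pow_right (by norm_num) hM
    omega
  have hb' : (1 : ℝ) ≤ b := by exact_mod_cast hb0
  have hR0 : 0 < R := lt_of_lt_of_le (by positivity) hR
  have hR' : (0 : ℝ) < R := by exact_mod_cast hR0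
  have hΛ' : (1 : ℝ) ≤ Λ := by exact_mod_cast hΛ1
  have hΛε : 14 * 2 ^ M * (K + 1 : ℝ) ≤ Λ * ε := by rwa [div_le_iff₀ hε0] at hΛ
  have h2M : (1 : ℝ) ≤ 2 ^ M := one_le_pow₀ (by norm_num)
  refine ⟨M + 2 * (Λ * R) + 5, fun k hk u hu x => ?_⟩
  have hun := norm_phases hu
  have hk' := mem_Icc.mp hk
  have hkR : (k : ℝ) ≤ K := by exact_mod_cast hk'.2
  obtain ⟨y, hy1, hy2, hy3⟩ := dirichlet x (N := Λ * R) (by positivity)
  set q := addOrderOf y with hq
  have hq' : (1 : ℝ) ≤ q := by exact_mod_cast hy1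
  have hcR : (c : ℝ) ≤ 2 * R := by exact_mod_cast hc.le
  have hmul : ‖(k * c) • (x - y)‖ * (q * Λ) ≤ 2 * K := by
    have a1 := norm_nsmul_le (n := k * c) (a := x - y)
    push_cast at a1 hy3
    rw [le_div_iff₀ (by positivity)] at hy3
    have a2 : (k : ℝ) * c ≤ K * (2 * R) := mul_le_mul hkR hcR (by positivity) (by positivity)
    have a3 := norm_nonneg (x - y)
    calc ‖(k * c) • (x - y)‖ * (q * Λ) ≤ (K * (2 * R) * ‖x - y‖) * (q * Λ) := by
          gcongr; exact a1.trans (by gcongr)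
      _ = 2 * K * (‖x - y‖ * (q * (Λ * R))) := by ring
      _ ≤ 2 * K * 1 := by gcongr
      _ = 2 * K := by ring
  have hbc : ∀ n, (0 : ℝ) ≤ badCount (orbits Z M) r n x / δ := fun n => by positivity
  have hnn := norm_nonneg ((k * c) • (x - y))
  by_cases hsmall : q < 2 ^ L1
  · by_cases hnear : Near (orbits Z M) r x
    · obtain ⟨z, hz, hxz⟩ := hnear
      obtain ⟨z0, hz0, hz'⟩ := mem_biUnion.mp hz
      obtain ⟨i, -, hi⟩ := mem_image.mp hz'
      have hzb : b • z = 0 := by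
        have e : b • z0 = 0 := by
          have := hZ z0 hz0
          have e2 : 2 ^ M = b + 1 := by omega
          rw [e2, add_nsmul, one_nsmul] at this
          simpa using this
        rw [← hi, smul_comm, e, smul_zero]
      have hyz : y = z := by
        by_contra hne
        have a1 := sep hy1 hb0 (addOrderOf_nsmul_eq_zero y) hzb hne
        have a2 : ‖y - z‖ ≤ ‖x - z‖ + ‖x - y‖ := by
          have : y - z = (x - z) - (x - y) := by abel
          rw [this]; exact norm_sub_le _ _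
        have a3 : ‖x - y‖ ≤ r := by
          refine hy3.trans ?_
          rw [hr]
          apply one_div_le_one_div_of_le (by positivity)
          have : ((8 * 2 ^ L1 * b : ℕ) : ℝ) ≤ R := by exact_mod_cast hR
          push_cast at this ⊢
          nlinarith [mul_le_mul hq' hΛ' zero_le_one (by positivity)]
        have a4 : 2 * r ≤ 1 / ((q : ℝ) * b) := by
          have : ((q : ℕ) : ℝ) ≤ ((2 ^ L1 : ℕ) : ℝ) := by exact_mod_cast hsmall.le
          push_cast at this
          rw [hr, mul_one_div, div_le_div_iff₀ (by positivity) (by positivity)]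
          have : (0 : ℝ) < 2 ^ L1 := by positivity
          nlinarith
        have a5 : 1 / ((q : ℝ) * b) ≤ ‖y - z‖ := a1
        linarith
      refine ⟨M, hM, by omega, ?_⟩
      have a1 := SS_sub_le hun (k * c) M x y
      have a2 : SS u (k * c) M y ≤ ε * M := by
        rw [hyz, ← hi, SS_shift u _ (hZ z0 hz0)]
        exact h1 z0 hz0 k hk u hu
      have a3 : 7 * 2 ^ M * ‖(k * c) • (x - y)‖ ≤ ε := by
        have a4 : ‖(k * c) • (x - y)‖ * Λ ≤ 2 * K := by
          nlinarith [mul_le_mul_of_nonneg_right hq' (by positivity : (0 : ℝ) ≤ Λ)]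
        have a5 : 7 * 2 ^ M * ‖(k * c) • (x - y)‖ * Λ ≤ ε * Λ := by nlinarith
        exact le_of_mul_le_mul_right a5 (by positivity)
      have hM' : (1 : ℝ) ≤ M := by exact_mod_cast hM
      have := hbc M
      nlinarith
    · refine ⟨1, le_rfl, by omega, ?_⟩
      have a1 := SS_le hun (k * c) 1 x
      have a2 : badCount (orbits Z M) r 1 x = 1 := by
        unfold badCount
        rw [range_one, filter_singleton, if_pos (by simpa using hnear)]
        simp
      rw [a2]
      have a3 : 1 ≤ 1 / δ := by rw [le_div_iff₀ hδ0]; linarith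
      push_cast at a1 ⊢
      linarith
  · push Not at hsmall
    set L := Nat.log 2 q with hL
    have hL1' : 2 ^ L ≤ q := Nat.pow_log_le_self 2 (by omega)
    have hL2' : q < 2 ^ (L + 1) := Nat.lt_pow_succ_log_self (by norm_num) q
    have hLL : L1 ≤ L := by
      have : 2 ^ L1 < 2 ^ (L + 1) := lt_of_le_of_lt hsmall hL2'
      have := (Nat.pow_lt_pow_iff_right (by norm_num)).mp this
      omega
    have hLq : L < q := lt_of_lt_of_le Nat.lt_two_pow_self hL1'
    by_cases htyp : (badCount (orbits Z M) r (2 * L + 5) x : ℝ) ≤ δ * (2 * L + 5 : ℕ)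
    · have hyt : y ∈ typ (orbits Z M) r δ (Λ * R) L := by
        unfold typ
        rw [mem_filter, Set.Finite.mem_toFinset]
        refine ⟨⟨hy1, hy2⟩, hL1', hL2', x, htyp, hy3.trans ?_⟩
        apply one_div_le_one_div_of_le (by positivity)
        have : (q : ℝ) ≤ ((Λ * R : ℕ) : ℝ) := by exact_mod_cast hy2
        rw [← hq]
        nlinarith
      refine ⟨L - K, by omega, by omega, ?_⟩
      have a1 := SS_sub_le hun (k * c) (L - K) x y
      have a2 := h2 L (mem_Ico.mpr ⟨hLL, by omega⟩) y hyt k hk u hu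
      have a3 : 7 * 2 ^ (L - K) * ‖(k * c) • (x - y)‖ ≤ ε := by
        have a4 : (2 : ℝ) ^ (L - K) ≤ q := by
          have : 2 ^ (L - K) ≤ q := (Nat.pow_le_pow_right (by norm_num) (by omega)).trans hL1'
          exact_mod_cast this
        have a6 : 2 ^ (L - K) * ‖(k * c) • (x - y)‖ * Λ ≤ 2 * K := by
          nlinarith [mul_le_mul_of_nonneg_right a4 (by positivity : (0 : ℝ) ≤ ‖(k * c) • (x - y)‖ * Λ)]
        have hK0 : (0 : ℝ) ≤ K := by positivity
        have a5 : 7 * 2 ^ (L - K) * ‖(k * c) • (x - y)‖ * Λ ≤ ε * Λ := by nlinarith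
        exact le_of_mul_le_mul_right a5 (by positivity)
      have hn' : (1 : ℝ) ≤ (L - K : ℕ) := by
        have : 1 ≤ L - K := by omega
        exact_mod_cast this
      have := hbc (L - K)
      nlinarith
    · push Not at htyp
      refine ⟨2 * L + 5, by omega, by omega, ?_⟩
      have a1 := SS_le hun (k * c) (2 * L + 5) x
      have a2 : ((2 * L + 5 : ℕ) : ℝ) ≤ badCount (orbits Z M) r (2 * L + 5) x / δ := by
        rw [le_div_iff₀ hδ0]; linarith
      have : 0 ≤ 2 * ε * ((2 * L + 5 : ℕ) : ℝ) := by positivity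
      linarith

end Pool.Agent.H285Z.TP
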