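import Pool.Agent.H285Z.TP.Basic

/-! Large deviation and second moment estimates for random multiples of a torsion point. -/

set_option autoImplicit false

open Finset

namespace Pool.Agent.H285Z.TP

/-- real part of a rotated character -/
noncomputable def ph (u : ℂ) (x : Cir) : ℝ := (u * ee x).re

theorem abs_ph_le {u : ℂ} (hu : ‖u‖ = 1) (x : Cir) : |ph u x| ≤ 1 := by
  refine (Complex.abs_re_le_norm _).trans ?_
  rw [norm_mul, hu, norm_ee]; simp

theorem ph_le {u : ℂ} (hu : ‖u‖ = 1) (x : Cir) : ph u x ≤ 1 :=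
  (le_abs_self _).trans (abs_ph_le hu x)

theorem ph_sub_le {u : ℂ} (hu : ‖u‖ = 1) (x y : Cir) : ph u x - ph u y ≤ 7 * ‖x - y‖ := by
  unfold ph
  rw [← Complex.sub_re, ← mul_sub]
  refine (Complex.re_le_norm _).trans ?_
  rw [norm_mul, hu, one_mul]
  exact norm_ee_sub_le x y

theorem continuous_ph (u : ℂ) : Continuous (ph u) := by
  unfold ph
  exact Complex.continuous_re.comp (continuous_const.mul continuous_ee)

theorem ph_complex (u : ℂ) (x : Cir) :
    ((ph u x : ℝ) : ℂ) = (u * ee x + (starRingEnd ℂ) u * ee (-x)) / 2 := by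
  rw [ee_neg, ← map_mul, ph, Complex.re_eq_add_conj]

/-- the Birkhoff sum of `ph u (m • ·)` under doubling -/
noncomputable def SS (u : ℂ) (m n : ℕ) (x : Cir) : ℝ := ∑ j ∈ range n, ph u (m • (2 ^ j • x))

theorem SS_sub_le {u : ℂ} (hu : ‖u‖ = 1) (m n : ℕ) (x y : Cir) :
    SS u m n x - SS u m n y ≤ 7 * 2 ^ n * ‖m • (x - y)‖ := by
  unfold SS
  rw [← sum_sub_distrib]
  have h1 : ∀ j ∈ range n, ph u (m • (2 ^ j • x)) - ph u (m • (2 ^ j • y)) ≤
      7 * ‖m • (x - y)‖ * 2 ^ j := by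
    intro j _
    refine (ph_sub_le hu _ _).trans ?_
    have : m • (2 ^ j • x) - m • (2 ^ j • y) = 2 ^ j • (m • (x - y)) := by
      rw [← smul_sub, ← smul_sub, smul_comm]
    rw [this]
    have h2 := norm_nsmul_le (n := 2 ^ j) (a := m • (x - y))
    push_cast at h2
    nlinarith
  refine (sum_le_sum h1).trans ?_
  rw [← mul_sum]
  have h3 : ∑ j ∈ range n, (2 : ℝ) ^ j ≤ 2 ^ n := by
    rw [geom_sum_eq (by norm_num)]; norm_num
  have := norm_nonneg (m • (x - y))
  nlinarith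

/-- the Riesz product -/
noncomputable def riesz (u : ℂ) (t : ℝ) (k n : ℕ) (y : Cir) (c : ℕ) : ℝ :=
  ∏ j ∈ range n, (1 + t * ph u ((k * c) • (2 ^ j • y)))

theorem riesz_succ (u : ℂ) (t : ℝ) (k n : ℕ) (y : Cir) (c : ℕ) (m : ℤ) :
    (riesz u t k (n + 1) y c : ℂ) * ee (c • (m • y)) =
      (riesz u t k n y c : ℂ) * ee (c • (m • y))
      + t / 2 * u * ((riesz u t k n y c : ℂ) * ee (c • ((m + k * 2 ^ n) • y)))
      + t / 2 * (starRingEnd ℂ) u * ((riesz u t k n y c : ℂ) * ee (c • ((m - k * 2 ^ n) • y))) := by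
  have e0 : (k * c) • (2 ^ n • y) = c • (((k : ℤ) * 2 ^ n) • y) := by
    rw [← mul_nsmul', ← natCast_zsmul, ← natCast_zsmul _ c, ← mul_zsmul]
    congr 1; push_cast; ring
  have e1 : ee (c • ((m + k * 2 ^ n) • y)) = ee (c • (m • y)) * ee ((k * c) • (2 ^ n • y)) := by
    rw [← ee_add, e0, add_zsmul, smul_add]
  have e2 : ee (c • ((m - k * 2 ^ n) • y)) = ee (c • (m • y)) * ee (-((k * c) • (2 ^ n • y))) := by
    rw [← ee_add, e0, sub_zsmul, smul_add, smul_neg]
  unfold riesz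
  rw [prod_range_succ, e1, e2]
  push_cast
  rw [ph_complex]
  ring

theorem riesz_orth (u : ℂ) (t : ℝ) {k : ℕ} (hk : 1 ≤ k) (y : Cir) (c0 : ℕ) (n : ℕ) :
    ∀ m : ℤ, (k : ℤ) * 2 ^ n ≤ |m| → |m| ≤ addOrderOf y - (k : ℤ) * 2 ^ n →
      ∑ c ∈ range (addOrderOf y), (riesz u t k n y (c0 + c) : ℂ) * ee ((c0 + c) • (m • y)) = 0 := by
  induction n with
  | zero =>
    intro m h1 h2
    simp only [riesz, range_zero, prod_empty, Complex.ofReal_one, one_mul]
    apply sum_ee_eq_zero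
    · rw [smul_comm, addOrderOf_nsmul_eq_zero, smul_zero]
    · intro h
      have hd : (addOrderOf y : ℤ) ∣ m := addOrderOf_dvd_iff_zsmul_eq_zero.mpr h
      have hk' : (1 : ℤ) ≤ k := by exact_mod_cast hk
      simp only [pow_zero, mul_one] at h1 h2
      have := Int.le_of_dvd (by omega) ((dvd_abs _ _).mpr hd)
      omega
  | succ n ih =>
    intro m h1 h2
    have hp : (0 : ℤ) ≤ (k : ℤ) * 2 ^ n := by positivity
    have e : (k : ℤ) * 2 ^ (n + 1) = 2 * ((k : ℤ) * 2 ^ n) := by ring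
    rw [e] at h1 h2
    simp_rw [riesz_succ]
    rw [sum_add_distrib, sum_add_distrib, ← mul_sum, ← mul_sum, ih m (by omega) (by omega),
      ih (m + k * 2 ^ n), ih (m - k * 2 ^ n)]
    · simp
    all_goals
      generalize (k : ℤ) * 2 ^ n = a at *
      rcases abs_cases m with h | h <;> rcases abs_cases (m - a) with h' | h' <;>
        rcases abs_cases (m + a) with h'' | h'' <;> omega

theorem riesz_sum (u : ℂ) (t : ℝ) {k : ℕ} (hk : 1 ≤ k) (y : Cir) (c0 : ℕ) (n : ℕ)
    (hn : k * 2 ^ n ≤ addOrderOf y) :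
    ∑ c ∈ range (addOrderOf y), riesz u t k n y (c0 + c) = addOrderOf y := by
  induction n with
  | zero => simp [riesz]
  | succ n ih =>
    have hn' : k * 2 ^ n ≤ addOrderOf y := by
      have : k * 2 ^ n ≤ k * 2 ^ (n + 1) := Nat.mul_le_mul_left _ (Nat.pow_le_pow_right (by norm_num) (by omega))
      omega
    have hz : ((k : ℤ) * 2 ^ n) + ((k : ℤ) * 2 ^ n) ≤ addOrderOf y := by
      have : ((k * 2 ^ (n + 1) : ℕ) : ℤ) ≤ addOrderOf y := by exact_mod_cast hn
      push_cast at this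
      linarith [pow_succ (2 : ℤ) n, show (k : ℤ) * 2 ^ (n + 1) = k * 2 ^ n + k * 2 ^ n by ring]
    have hp : (0 : ℤ) ≤ (k : ℤ) * 2 ^ n := by positivity
    have h1 : ∀ c : ℕ, (riesz u t k (n + 1) y c : ℂ) = (riesz u t k n y c : ℂ)
      + t / 2 * u * ((riesz u t k n y c : ℂ) * ee (c • ((0 + k * 2 ^ n : ℤ) • y)))
      + t / 2 * (starRingEnd ℂ) u *
        ((riesz u t k n y c : ℂ) * ee (c • ((0 - k * 2 ^ n : ℤ) • y))) := by
      intro c
      have := riesz_succ u t k n y c 0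
      simpa [ee_zero] using this
    have h2 : ((∑ c ∈ range (addOrderOf y), riesz u t k (n + 1) y (c0 + c) : ℝ) : ℂ) =
        ((∑ c ∈ range (addOrderOf y), riesz u t k n y (c0 + c) : ℝ) : ℂ) := by
      push_cast
      simp_rw [h1]
      rw [sum_add_distrib, sum_add_distrib, ← mul_sum, ← mul_sum,
        riesz_orth u t hk y c0 n, riesz_orth u t hk y c0 n]
      · simp
      all_goals
        generalize (k : ℤ) * 2 ^ n = a at *
        simp only [zero_add, zero_sub, abs_neg, abs_of_nonneg hp]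
        omega
    rw [← ih hn']
    exact_mod_cast h2

theorem exp_le_riesz_factor {t s : ℝ} (ht0 : 0 ≤ t) (ht : t ≤ 1 / 2) (hs : |s| ≤ 1) :
    Real.exp (t * s) ≤ Real.exp (2 * t ^ 2) * (1 + t * s) := by
  have hs' := abs_le.mp hs
  have hts : |t * s| ≤ t := by
    rw [abs_mul, abs_of_nonneg ht0]; nlinarith [abs_nonneg s]
  have hts' := abs_le.mp hts
  have h1 : Real.exp (t * s) ≤ 1 + t * s + (t * s) ^ 2 := by
    have := Real.abs_exp_sub_one_sub_id_le (x := t * s) (by linarith)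
    have := (abs_le.mp this).2
    linarith
  have h2 : 1 + 2 * t ^ 2 ≤ Real.exp (2 * t ^ 2) := by
    have := Real.add_one_le_exp (2 * t ^ 2); linarith
  have h3 : (t * s) ^ 2 ≤ t ^ 2 := by
    have := sq_abs (t * s)
    nlinarith [abs_nonneg (t * s)]
  have h4 : 0 ≤ 1 + t * s := by linarith
  nlinarith [mul_le_mul_of_nonneg_right h2 h4, sq_nonneg t]

theorem large_dev {u : ℂ} (hu : ‖u‖ = 1) {ε : ℝ} (hε0 : 0 < ε) (hε1 : ε ≤ 1) {k : ℕ} (hk : 1 ≤ k)
    (y : Cir) (n : ℕ) (hn : k * 2 ^ n ≤ addOrderOf y) (c0 : ℕ) :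
    (((range (addOrderOf y)).filter (fun c => ε * n < SS u (k * (c0 + c)) n y)).card : ℝ) ≤
      Real.exp (-(ε ^ 2 / 8 * n)) * addOrderOf y := by
  set t := ε / 4 with ht
  have ht0 : 0 ≤ t := by positivity
  have ht1 : t ≤ 1 / 2 := by linarith
  have hexp : ∀ c : ℕ, Real.exp (t * SS u (k * c) n y) ≤
      Real.exp (2 * t ^ 2 * n) * riesz u t k n y c := by
    intro c
    unfold SS riesz
    rw [mul_sum, Real.exp_sum, mul_comm _ (n : ℝ), Real.exp_nat_mul]
    have : Real.exp (2 * t ^ 2) ^ n = ∏ _j ∈ range n, Real.exp (2 * t ^ 2) := by simp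
    rw [this, ← prod_mul_distrib]
    exact prod_le_prod (fun j _ => (Real.exp_pos _).le)
      (fun j _ => exp_le_riesz_factor ht0 ht1 (abs_ph_le hu _))
  have h1 : (((range (addOrderOf y)).filter (fun c => ε * n < SS u (k * (c0 + c)) n y)).card : ℝ)
      * Real.exp (t * (ε * n)) ≤ ∑ c ∈ range (addOrderOf y), Real.exp (t * SS u (k * (c0 + c)) n y) := by
    rw [← nsmul_eq_mul, ← sum_const]
    refine le_trans (sum_le_sum ?_) (sum_le_sum_of_subset_of_nonneg (filter_subset _ _)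
      (fun _ _ _ => (Real.exp_pos _).le))
    intro c hc
    exact Real.exp_le_exp.mpr (mul_le_mul_of_nonneg_left (mem_filter.mp hc).2.le ht0)
  have h2 : ∑ c ∈ range (addOrderOf y), Real.exp (t * SS u (k * (c0 + c)) n y) ≤
      Real.exp (2 * t ^ 2 * n) * addOrderOf y := by
    refine (sum_le_sum fun c _ => hexp (c0 + c)).trans ?_
    rw [← mul_sum, riesz_sum u t hk y c0 n hn]
  have h3 : Real.exp (2 * t ^ 2 * n) = Real.exp (-(ε ^ 2 / 8 * n)) * Real.exp (t * (ε * n)) := by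
    rw [← Real.exp_add]; congr 1; rw [ht]; ring
  have h4 := h1.trans h2
  rw [h3, mul_right_comm] at h4
  exact le_of_mul_le_mul_right h4 (Real.exp_pos _)

theorem second_moment {u : ℂ} (hu : ‖u‖ = 1) {ε : ℝ} (hε0 : 0 < ε) (k : ℕ) {M b : ℕ} (hM : 0 < M)
    (z : Cir) (hb : b • z = 0)
    (hinj : ∀ i < M, ∀ j < M, k • (2 ^ i • z) = k • (2 ^ j • z) → i = j) (c0 : ℕ) :
    (((range b).filter (fun c => ε * M < SS u (k * (c0 + c)) M z)).card : ℝ) ≤
      1 / (ε ^ 2 * M) * b := by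
  set A : ℕ → ℂ := fun c => ∑ j ∈ range M, ee (c • (k • (2 ^ j • z))) with hA
  have hSS : ∀ c : ℕ, SS u (k * c) M z ≤ ‖A c‖ := by
    intro c
    have : SS u (k * c) M z = (u * A c).re := by
      unfold SS ph
      rw [hA, mul_sum, Complex.re_sum]
      refine sum_congr rfl fun j _ => ?_
      rw [mul_comm k c, mul_nsmul']
    rw [this]
    refine (Complex.re_le_norm _).trans ?_
    rw [norm_mul, hu, one_mul]
  have hsq : ∀ c : ℕ, ((‖A c‖ ^ 2 : ℝ) : ℂ) = ∑ i ∈ range M, ∑ j ∈ range M,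
      ee (c • (k • (2 ^ i • z) - k • (2 ^ j • z))) := by
    intro c
    rw [← Complex.normSq_eq_norm_sq, ← Complex.mul_conj, hA]
    simp only [map_sum]
    rw [sum_mul_sum]
    refine sum_congr rfl fun i _ => sum_congr rfl fun j _ => ?_
    rw [← ee_neg, ← ee_add, smul_sub, sub_eq_add_neg]
  have hsum : ∑ c ∈ range b, ‖A (c0 + c)‖ ^ 2 = (b : ℝ) * M := by
    have : ((∑ c ∈ range b, ‖A (c0 + c)‖ ^ 2 : ℝ) : ℂ) = ((b : ℝ) * M : ℝ) := by
      rw [Complex.ofReal_sum]
      simp_rw [hsq]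
      rw [sum_comm]
      have : ∀ i ∈ range M, ∑ c ∈ range b, ∑ j ∈ range M,
          ee ((c0 + c) • (k • (2 ^ i • z) - k • (2 ^ j • z))) = b := by
        intro i hi
        rw [sum_comm, sum_eq_single i]
        · simp [ee_zero]
        · intro j hj hji
          apply sum_ee_eq_zero
          · rw [smul_sub, smul_comm b k, smul_comm b, hb, smul_comm b k, smul_comm b, hb]; simp
          · intro h
            exact hji (hinj i (mem_range.mp hi) j (mem_range.mp hj) (sub_eq_zero.mp h)).symm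
        · intro h; exact absurd hi h
      rw [sum_congr rfl this]
      simp [mul_comm]
    exact_mod_cast this
  have hM' : (0 : ℝ) < M := by exact_mod_cast hM
  have h1 : (((range b).filter (fun c => ε * M < SS u (k * (c0 + c)) M z)).card : ℝ)
      * (ε * M) ^ 2 ≤ ∑ c ∈ range b, ‖A (c0 + c)‖ ^ 2 := by
    rw [← nsmul_eq_mul, ← sum_const]
    refine le_trans (sum_le_sum ?_) (sum_le_sum_of_subset_of_nonneg (filter_subset _ _)
      (fun _ _ _ => by positivity))
    intro c hc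
    have := (mem_filter.mp hc).2.le.trans (hSS (c0 + c))
    exact pow_le_pow_left₀ (by positivity) this 2
  rw [hsum] at h1
  have h2 : (b : ℝ) * M = 1 / (ε ^ 2 * M) * b * (ε * M) ^ 2 := by field_simp
  rw [h2] at h1
  exact le_of_mul_le_mul_right h1 (by positivity)

end Pool.Agent.H285Z.TP
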