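import Pool.Agent.H285Z.TP.Good

/-! Invariant measures of the doubling map: averaging and approximation by few periodic orbits. -/

set_option autoImplicit false

open Finset Filter Topology MeasureTheory

namespace Pool.Agent.H285Z.TP

/-- invariant probability measures of the doubling map -/
abbrev Inv : Type := {ν : ProbabilityMeasure Cir //
  (ν : Measure Cir).map (fun x : Cir => 2 • x) = (ν : Measure Cir)}

theorem integrable_cont {E : Type*} [NormedAddCommGroup E] (μ : Measure Cir) [IsFiniteMeasure μ]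
    {f : Cir → E} (hf : Continuous f) : Integrable f μ :=
  hf.integrable_of_hasCompactSupport (HasCompactSupport.of_compactSpace f)

theorem integral_two_pow (μ : Inv) {f : Cir → ℝ} (hf : Continuous f) (j : ℕ) :
    ∫ x, f (2 ^ j • x) ∂(μ.1 : Measure Cir) = ∫ x, f x ∂(μ.1 : Measure Cir) := by
  induction j with
  | zero => simp
  | succ j ih =>
    rw [← ih]
    conv_rhs => rw [← μ.2]
    have hc : Continuous fun x : Cir => f (2 ^ j • x) := hf.comp (continuous_nsmul _)
    rw [integral_map (continuous_nsmul 2).measurable.aemeasurable hc.aestronglyMeasurable]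
    congr 1
    funext x
    rw [pow_succ, mul_nsmul']

theorem integral_birkhoff (μ : Inv) {f : Cir → ℝ} (hf : Continuous f) (n : ℕ) :
    ∫ x, ∑ j ∈ range n, f (2 ^ j • x) ∂(μ.1 : Measure Cir) = n * ∫ x, f x ∂(μ.1 : Measure Cir) := by
  have hc : ∀ j : ℕ, Continuous fun x : Cir => f (2 ^ j • x) :=
    fun j => hf.comp (continuous_nsmul _)
  rw [integral_finsetSum _ (fun j _ => integrable_cont _ (hc j))]
  simp_rw [integral_two_pow μ hf]
  simp

theorem averaging (μ : Inv) {g : Cir → ℝ} (hg : Continuous g) (N : ℕ)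
    (h : ∀ x, ∃ n, 1 ≤ n ∧ n ≤ N ∧ ∑ j ∈ range n, g (2 ^ j • x) ≤ 0) :
    ∫ x, g x ∂(μ.1 : Measure Cir) ≤ 0 := by
  obtain ⟨B0, hB0⟩ := (isCompact_range hg).bddAbove
  set B := max B0 0 with hBdef
  have hB : ∀ x, g x ≤ B := fun x => (hB0 ⟨x, rfl⟩).trans (le_max_left _ _)
  have hBn : 0 ≤ B := le_max_right _ _
  have hW : ∀ W : ℕ, ∀ x, ∑ j ∈ range W, g (2 ^ j • x) ≤ N * B := by
    intro W
    induction W using Nat.strong_induction_on with
    | _ W ih =>
      intro x
      by_cases hWN : W ≤ N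
      · refine (sum_le_sum fun j _ => hB _).trans ?_
        rw [sum_const, card_range, nsmul_eq_mul]
        have : (W : ℝ) ≤ N := by exact_mod_cast hWN
        gcongr
      · obtain ⟨n, hn1, hn2, hn3⟩ := h x
        obtain ⟨m, rfl⟩ : ∃ m, W = n + m := ⟨W - n, by omega⟩
        rw [sum_range_add]
        have := ih m (by omega) (2 ^ n • x)
        have e : ∀ j, 2 ^ (n + j) • x = 2 ^ j • (2 ^ n • x) := by
          intro j; rw [pow_add, mul_nsmul]
        simp_rw [e]
        linarith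
  have hI : ∀ W : ℕ, W * ∫ x, g x ∂(μ.1 : Measure Cir) ≤ N * B := by
    intro W
    rw [← integral_birkhoff μ hg]
    have := integral_mono (μ := (μ.1 : Measure Cir)) (integrable_cont _ (continuous_finsetSum _
      (fun j _ => hg.comp (continuous_nsmul (2 ^ j))))) (integrable_const (N * B)) (hW W)
    simpa using this
  by_contra hpos
  push Not at hpos
  obtain ⟨W, hW'⟩ := exists_nat_gt (N * B / ∫ x, g x ∂(μ.1 : Measure Cir))
  rw [div_lt_iff₀ hpos] at hW'
  linarith [hI W]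

/-- a bump function which vanishes on `P` and equals `1` away from `P` -/
noncomputable def bump (P : Finset Cir) (r : ℝ) (x : Cir) : ℝ := ∏ z ∈ P, min 1 (‖x - z‖ / r)

theorem continuous_bump (P : Finset Cir) (r : ℝ) : Continuous (bump P r) := by
  unfold bump
  fun_prop

theorem bump_nonneg (P : Finset Cir) {r : ℝ} (hr : 0 < r) (x : Cir) : 0 ≤ bump P r x :=
  prod_nonneg fun z _ => le_min zero_le_one (by positivity)

theorem bump_far {P : Finset Cir} {r : ℝ} (hr : 0 < r) {x : Cir} (hx : ¬ Near P r x) :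
    bump P r x = 1 := by
  apply prod_eq_one
  intro z hz
  apply min_eq_left
  rw [le_div_iff₀ hr, one_mul]
  by_contra h
  exact hx ⟨z, hz, not_le.mp h⟩

theorem bump_mem {P : Finset Cir} (r : ℝ) {z : Cir} (hz : z ∈ P) : bump P r z = 0 :=
  prod_eq_zero hz (by simp)

theorem badCount_le (P : Finset Cir) {r : ℝ} (hr : 0 < r) (n : ℕ) (x : Cir) :
    (badCount P r n x : ℝ) ≤ ∑ j ∈ range n, bump P r (2 ^ j • x) := by
  classical
  unfold badCount
  rw [card_eq_sum_ones]
  push_cast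
  refine le_trans (le_of_eq ?_) (sum_le_sum_of_subset_of_nonneg (filter_subset
    (fun j => ¬ Near P r (2 ^ j • x)) _) (fun _ _ _ => bump_nonneg P hr _))
  refine sum_congr (by congr) fun j hj => (bump_far hr (mem_filter.mp hj).2).symm

theorem good_bound {P : Finset Cir} {r δ ε : ℝ} (hr : 0 < r) (hδ : 0 < δ) {K c : ℕ}
    (h : GoodC P r δ ε K c) (μ : Inv) (hμ : ∫ x, bump P r x ∂(μ.1 : Measure Cir) ≤ ε * δ)
    {k : ℕ} (hk : k ∈ Icc 1 K) {u : ℂ} (hu : u ∈ phases) :
    ∫ x, ph u ((k * c) • x) ∂(μ.1 : Measure Cir) ≤ 3 * ε := by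
  obtain ⟨N, hN⟩ := h
  have h1 : Continuous fun x : Cir => ph u ((k * c) • x) :=
    (continuous_ph u).comp (continuous_nsmul _)
  have h2 := continuous_bump P r
  have := averaging μ (g := fun x => ph u ((k * c) • x) - 2 * ε - bump P r x / δ)
    (by fun_prop) N (fun x => by
      obtain ⟨n, hn1, hn2, hn3⟩ := hN k hk u hu x
      refine ⟨n, hn1, hn2, le_trans ?_ hn3⟩
      rw [sum_sub_distrib, sum_sub_distrib, ← sum_div, sum_const, card_range, nsmul_eq_mul]
      have := div_le_div_of_nonneg_right (badCount_le P hr n x) hδ.le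
      unfold SS
      linarith)
  rw [integral_sub (integrable_cont _ (by fun_prop)) (integrable_cont _ (by fun_prop)),
    integral_sub (integrable_cont _ h1) (integrable_const _), integral_div] at this
  simp only [integral_const, probReal_univ, smul_eq_mul, one_mul] at this
  have h3 : (∫ x, bump P r x ∂(μ.1 : Measure Cir)) / δ ≤ ε := by rwa [div_le_iff₀ hδ]
  linarith

theorem nhds_basis (μ : ProbabilityMeasure Cir) {U : Set (ProbabilityMeasure Cir)} (hU : U ∈ 𝓝 μ) :
    ∃ (F : Finset C(Cir, ℝ)) (η : ℝ), 0 < η ∧ ∀ ν : ProbabilityMeasure Cir,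
      (∀ f ∈ F, dist (∫ x, f x ∂(ν : Measure Cir)) (∫ x, f x ∂(μ : Measure Cir)) < η) → ν ∈ U := by
  set Φ : ProbabilityMeasure Cir → C(Cir, ℝ) → ℝ := fun ν f => ∫ x, f x ∂(ν : Measure Cir) with hΦ
  have hle : Tendsto id (comap Φ (𝓝 (Φ μ))) (𝓝 μ) := by
    rw [ProbabilityMeasure.tendsto_iff_forall_integral_tendsto]
    intro f
    exact (tendsto_pi_nhds.mp (tendsto_comap (f := Φ) (x := 𝓝 (Φ μ)))) f.toContinuousMap
  obtain ⟨t, ht, hsub⟩ := mem_comap.mp (hle hU)
  rw [nhds_pi, mem_pi'] at ht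
  obtain ⟨F, s, hs, hFs⟩ := ht
  have hev : ∀ᶠ η in 𝓝[>] (0 : ℝ), ∀ f ∈ F, Metric.ball (Φ μ f) η ⊆ s f := by
    rw [eventually_all_finset]
    intro f _
    exact (eventually_ball_subset (hs f)).filter_mono nhdsWithin_le_nhds
  obtain ⟨η, hη, hη0⟩ := (hev.and self_mem_nhdsWithin).exists
  refine ⟨F, η, hη0, fun ν hν => hsub (hFs fun f hf => hη f hf ?_)⟩
  exact hν f hf

theorem exists_close_torsion {b : ℕ} (hb : 3 ≤ b) (x : Cir) :
    ∃ z : Cir, z ≠ 0 ∧ b • z = 0 ∧ ‖x - z‖ ≤ 1 / b := by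
  obtain ⟨t, rfl, ht⟩ := exists_lift x
  have ht2 : |t| ≤ 1 / 2 := by
    rw [ht]; simpa using AddCircle.norm_le_half_period (1 : ℝ) (x := (t : Cir)) one_ne_zero
  have hb' : (3 : ℝ) ≤ b := by exact_mod_cast hb
  obtain ⟨a, ha0, ha1⟩ : ∃ a : ℤ, a ≠ 0 ∧ |t * b - a| ≤ 1 := by
    by_cases h : ⌊t * b⌋ = 0
    · refine ⟨1, one_ne_zero, ?_⟩
      have := Int.floor_eq_zero_iff.mp h
      rw [abs_le]; push_cast; constructor <;> linarith [this.1, this.2]
    · refine ⟨_, h, ?_⟩
      rw [abs_le]; constructor <;> linarith [Int.floor_le (t * b), Int.lt_floor_add_one (t * b)]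
  have hb0 : (0 : ℝ) < b := by linarith
  refine ⟨((a / b : ℝ) : Cir), ?_, ?_, ?_⟩
  · intro h
    rw [AddCircle.coe_eq_zero_iff] at h
    obtain ⟨n, hn⟩ := h
    simp only [zsmul_eq_mul, mul_one] at hn
    rw [eq_div_iff hb0.ne'] at hn
    have h1 := abs_le.mp ha1
    have h2 := abs_le.mp ht2
    have h3 : (n : ℝ) < 1 := by nlinarith
    have h4 : (-1 : ℝ) < n := by nlinarith
    have h5 : n < 1 := by exact_mod_cast h3
    have h6 : -1 < n := by exact_mod_cast h4
    have : n = 0 := by omega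
    rw [this] at hn
    simp only [Int.cast_zero, zero_mul] at hn
    exact ha0 (by exact_mod_cast hn.symm)
  · rw [← AddCircle.coe_nsmul, AddCircle.coe_eq_zero_iff]
    refine ⟨a, ?_⟩
    simp only [zsmul_eq_mul, mul_one, nsmul_eq_mul]
    field_simp
  · rw [← AddCircle.coe_sub]
    refine (norm_coe_le _).trans ?_
    have : t - a / b = (t * b - a) / b := by field_simp
    rw [this, abs_div, abs_of_pos hb0]
    gcongr

theorem shadow (f : C(Cir, ℝ)) {η : ℝ} (hη : 0 < η) :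
    ∀ᶠ M : ℕ in atTop, ∀ x z : Cir, ‖x - z‖ ≤ 1 / ((2 ^ M - 1 : ℕ) : ℝ) →
      dist ((∑ j ∈ range M, f (2 ^ j • x)) / M) ((∑ j ∈ range M, f (2 ^ j • z)) / M) ≤ η := by
  obtain ⟨ρ, hρ, hf⟩ := Metric.uniformContinuous_iff.mp
    (CompactSpace.uniformContinuous_of_continuous f.continuous) (η / 2) (half_pos hη)
  obtain ⟨t, ht⟩ := exists_pow_lt_of_lt_one (half_pos hρ) (by norm_num : (1 / 2 : ℝ) < 1)
  filter_upwards [eventually_ge_atTop (t + 1), eventually_ge_atTop ⌈4 * ‖f‖ * t / η⌉₊]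
    with M hM1 hM2 x z hxz
  obtain ⟨m, rfl⟩ : ∃ m, M = m + t := ⟨M - t, by omega⟩
  have hM0 : (0 : ℝ) < (m + t : ℕ) := by exact_mod_cast (by omega : 0 < m + t)
  have hM3 : 4 * ‖f‖ * t ≤ (m + t : ℕ) * η := by
    have := (Nat.le_ceil _).trans (Nat.cast_le.mpr hM2)
    rwa [div_le_iff₀ hη] at this
  have hb : (2 : ℝ) ^ (m + t) / 2 ≤ ((2 ^ (m + t) - 1 : ℕ) : ℝ) := by
    rw [Nat.cast_sub (Nat.one_le_two_pow)]
    push_cast
    have : (2 : ℝ) ^ 1 ≤ 2 ^ (m + t) := pow_le_pow_right₀ (by norm_num) (by omega)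
    linarith
  have hxz' : ‖x - z‖ ≤ 2 / 2 ^ (m + t) := by
    refine hxz.trans ((one_div_le_one_div_of_le (by positivity) hb).trans (le_of_eq ?_))
    field_simp
  rw [Real.dist_eq, ← sub_div, abs_div, abs_of_pos hM0, div_le_iff₀ hM0, ← sum_sub_distrib]
  refine (abs_sum_le_sum_abs _ _).trans ?_
  rw [sum_range_add]
  have h1 : ∑ j ∈ range m, |f (2 ^ j • x) - f (2 ^ j • z)| ≤ m * (η / 2) := by
    refine (sum_le_sum (g := fun _ => η / 2) fun j hj => ?_).trans (by simp)
    rw [← Real.dist_eq]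
    apply (hf _).le
    rw [dist_eq_norm, ← smul_sub]
    have a1 := norm_nsmul_le (n := 2 ^ j) (a := x - z)
    push_cast at a1
    have a2 : (2 : ℝ) ^ j ≤ 2 ^ m := pow_le_pow_right₀ (by norm_num) (mem_range.mp hj).le
    have a3 : (2 : ℝ) ^ m * (2 / 2 ^ (m + t)) = 2 * (1 / 2) ^ t := by
      rw [pow_add, one_div, inv_pow]; field_simp
    have a4 : (2 : ℝ) ^ j * ‖x - z‖ ≤ 2 ^ m * (2 / 2 ^ (m + t)) := by gcongr
    linarith
  have h2 : ∑ j ∈ range t, |f (2 ^ (m + j) • x) - f (2 ^ (m + j) • z)| ≤ t * (2 * ‖f‖) := by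
    refine (sum_le_sum (g := fun _ => 2 * ‖f‖) fun j _ => ?_).trans (by simp)
    rw [← Real.dist_eq]
    exact f.dist_le_two_norm _ _
  push_cast at hM3 ⊢
  have : (0 : ℝ) ≤ t * η := by positivity
  nlinarith

end Pool.Agent.H285Z.TP
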